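import Pool.Agent.Helper597.Don85.Defs
import Pool.Agent.Helper597.Don85.P_card_per

set_option autoImplicit false

namespace Pool.Agent.Helper597.Don85



theorem arc_count_lower (A : Finset ℕ) (h : ∀ j, j + 1 ∈ A → j ∈ A) (j : ℕ) :
    j ∈ A ↔ j < A.card := by
  have hd : ∀ i j, i ≤ j → j ∈ A → i ∈ A := by
    intro i j hij
    induction j, hij using Nat.le_induction with
    | base => exact fun h => h
    | succ k hk ih => exact fun hk1 => ih (h k hk1)
  constructor
  · intro hj
    have h1 : Finset.range (j + 1) ⊆ A := fun i hi => hd i j (by rw [Finset.mem_range] at hi; omega) hj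
    have h2 := Finset.card_le_card h1
    rw [Finset.card_range] at h2
    omega
  · intro hj
    by_contra hcon
    have h1 : A ⊆ Finset.range j := by
      intro i hi
      rw [Finset.mem_range]
      by_contra hij
      push Not at hij
      exact hcon (hd j i hij hi)
    have h2 := Finset.card_le_card h1
    rw [Finset.card_range] at h2
    omega

theorem arc_count_ord {n : ℕ} [NeZero n] (d : ZMod n) (g M : ℕ) (hn : n = g * M) (hg : 0 < g)
    (hM : 0 < M) (mem : ∀ x : ZMod n, x ∈ AddSubgroup.zmultiples d ↔ g ∣ x.val) :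
    addOrderOf d = M := by
  classical
  rw [← Nat.card_zmultiples]
  have h1 : Nat.card (AddSubgroup.zmultiples d) =
      (Finset.univ.filter (fun x : ZMod n => x ∈ AddSubgroup.zmultiples d)).card := by
    rw [Nat.card_eq_fintype_card, Fintype.card_subtype]
  rw [h1]
  have h2 : Finset.univ.filter (fun x : ZMod n => x ∈ AddSubgroup.zmultiples d) =
      (Finset.range M).image (fun i => ((g * i : ℕ) : ZMod n)) := by
    ext x
    rw [Finset.mem_filter, Finset.mem_image, mem]
    constructor
    · rintro ⟨-, k, hk⟩
      refine ⟨k, ?_, ?_⟩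
      · rw [Finset.mem_range]
        have := ZMod.val_lt x
        rw [hk, hn] at this
        exact Nat.lt_of_mul_lt_mul_left this
      · rw [← hk, ZMod.natCast_zmod_val]
    · rintro ⟨i, hi, rfl⟩
      refine ⟨Finset.mem_univ _, ?_⟩
      rw [Finset.mem_range] at hi
      rw [ZMod.val_natCast, Nat.mod_eq_of_lt]
      · exact dvd_mul_right _ _
      · rw [hn]; exact Nat.mul_lt_mul_of_pos_left hi hg
  rw [h2, Finset.card_image_of_injOn, Finset.card_range]
  intro i hi j hj hij
  rw [Finset.coe_range, Set.mem_Iio] at hi hj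
  have h3 := congrArg ZMod.val hij
  simp only at h3
  rw [ZMod.val_natCast, ZMod.val_natCast, Nat.mod_eq_of_lt, Nat.mod_eq_of_lt] at h3
  · exact Nat.eq_of_mul_eq_mul_left hg h3
  · rw [hn]; exact Nat.mul_lt_mul_of_pos_left hj hg
  · rw [hn]; exact Nat.mul_lt_mul_of_pos_left hi hg

theorem arc_count {n : ℕ} [NeZero n] {π : Equiv.Perm (ZMod n)} {d : ZMod n}
    {B : Finset (ZMod n) → ℕ → Prop} {g M : ℕ} (w : W π d B g M) (E : Finset (ZMod n))
    (s : ℕ) (hs1 : 1 ≤ s) (hsM : s < M) (hE : ∀ x ∈ E, x ≠ 0 → x + d ∈ E)
    (hcard : M ∣ E.card + s) (j : ℕ) (hj : j < M) : -(j • d) ∈ E ↔ j + s < M := by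
  classical
  have hM0 : 0 < M := by have := w.hM; omega
  have hg0 : 0 < g := by have := w.hg; omega
  have hord : addOrderOf d = M := arc_count_ord d g M w.hn hg0 hM0 w.mem
  set K := AddSubgroup.zmultiples d with hK
  have hcK : Nat.card K = M := by rw [hK, Nat.card_zmultiples, hord]
  have hdK : d ∈ K := AddSubgroup.mem_zmultiples d
  have hPer : Per K (E.filter (fun x => x ∉ K)) := by
    intro x hx κ hκ
    have hstep : ∀ m : ℕ, x + m • d ∈ E.filter (fun x => x ∉ K) := by
      intro m
      induction m with
      | zero => rw [zero_smul, add_zero]; exact hx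
      | succ m ih =>
        rw [Finset.mem_filter] at ih ⊢
        have h0 : x + m • d ≠ 0 := by
          intro h
          apply ih.2
          rw [h]
          exact K.zero_mem
        have e : x + (m + 1) • d = (x + m • d) + d := by
          rw [succ_nsmul, add_assoc]
        rw [e]
        refine ⟨hE _ ih.1 h0, fun h => ih.2 ?_⟩
        have := K.sub_mem h hdK
        rwa [add_sub_cancel_right] at this
    rw [hK, mem_zmultiples_iff_mem_range_addOrderOf, Finset.mem_image] at hκ
    obtain ⟨m, -, rfl⟩ := hκ
    exact hstep m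
  have h1 := card_per K _ hPer
  rw [hcK] at h1
  set A := (Finset.range M).filter (fun j => -(j • d) ∈ E) with hA
  have h2 : (E.filter (fun x => x ∈ K)).card = A.card := by
    symm
    refine Finset.card_bij (fun j _ => -(j • d)) ?_ ?_ ?_
    · intro j hj
      rw [hA, Finset.mem_filter] at hj
      rw [Finset.mem_filter]
      exact ⟨hj.2, K.neg_mem (K.nsmul_mem hdK j)⟩
    · intro i hi j hj hij
      rw [hA, Finset.mem_filter, Finset.mem_range] at hi hj
      have h3 : i • d = j • d := neg_injective hij
      apply nsmul_injOn_Iio_addOrderOf (x := d) _ _ h3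
      · rw [hord]; exact hi.1
      · rw [hord]; exact hj.1
    · intro x hx
      rw [Finset.mem_filter] at hx
      have h3 := K.neg_mem hx.2
      rw [hK, mem_zmultiples_iff_mem_range_addOrderOf, Finset.mem_image] at h3
      obtain ⟨m, hm, hmx⟩ := h3
      rw [hord] at hm
      have h4 : -(m • d) = x := by rw [hmx, neg_neg]
      refine ⟨m, ?_, h4⟩
      rw [hA, Finset.mem_filter, h4]
      exact ⟨hm, hx.1⟩
  have h3 : (E.filter (fun x => x ∈ K)).card + (E.filter (fun x => x ∉ K)).card = E.card :=
    Finset.card_filter_add_card_filter_not _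
  have hlow : ∀ j, j + 1 ∈ A → j ∈ A := by
    intro j hj
    rw [hA, Finset.mem_filter, Finset.mem_range] at hj ⊢
    refine ⟨by omega, ?_⟩
    have h4 : -((j + 1) • d) ≠ 0 := by
      intro h
      rw [neg_eq_zero, ← addOrderOf_dvd_iff_nsmul_eq_zero, hord] at h
      have := Nat.le_of_dvd (by omega) h
      omega
    have h5 := hE _ hj.2 h4
    have e : -((j + 1) • d) + d = -(j • d) := by
      rw [succ_nsmul]; abel
    rwa [e] at h5
  have hAM : A.card ≤ M := by
    have := Finset.card_filter_le (Finset.range M) (fun j => -(j • d) ∈ E)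
    rwa [Finset.card_range] at this
  have h4 : M ∣ A.card + s := by
    have h5 : E.card + s = (A.card + s) + (E.filter (fun x => x ∉ K)).card := by omega
    rw [h5] at hcard
    exact (Nat.dvd_add_left h1).1 hcard
  have h5 : A.card + s = M := by
    obtain ⟨q, hq⟩ := h4
    have hq1 : q = 1 := by
      rcases Nat.lt_or_ge q 1 with h | h
      · have : q = 0 := by omega
        rw [this, mul_zero] at hq
        omega
      · rcases Nat.lt_or_ge q 2 with h' | h'
        · omega
        · have : M * 2 ≤ M * q := Nat.mul_le_mul_left M h'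
          omega
    rw [hq1, mul_one] at hq
    exact hq
  have h6 := arc_count_lower A hlow j
  have h7 : j ∈ A ↔ -(j • d) ∈ E := by
    rw [hA, Finset.mem_filter, Finset.mem_range]
    exact ⟨fun h => h.2, fun h => ⟨hj, h⟩⟩
  rw [← h7, h6]
  omega
end Pool.Agent.Helper597.Don85
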