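import Pool.Agent.Helper597.Don85.Defs

set_option autoImplicit false

namespace Pool.Agent.Helper597.Don85



theorem aux_23279 {s l : ℕ} (hs : 1 ≤ s) (hsl : s < l) :
    s * (l - 1) = (l - s) + l * (s - 1) := by
  obtain ⟨s', rfl⟩ : ∃ s', s = s' + 1 := ⟨s - 1, by omega⟩
  obtain ⟨r, rfl⟩ : ∃ r, l = s' + 1 + 1 + r := ⟨l - (s' + 2), by omega⟩
  have e1 : s' + 1 + 1 + r - 1 = s' + 1 + r := by omega
  have e2 : s' + 1 + 1 + r - (s' + 1) = 1 + r := by omega
  have e3 : s' + 1 - 1 = s' := by omega
  rw [e1, e2, e3]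
  ring

theorem claimA {n : ℕ} [NeZero n] (π : Equiv.Perm (ZMod n)) (g : ℕ) (hg : 1 ≤ g) (hg3 : 3 * g ≤ n)
    (hπ : π 0 = 0) (hπd : π (-(g : ZMod n)) = -(g : ZMod n)) (E : Finset (ZMod n))
    (hgE : (g : ZMod n) ∈ E) (hdE : -(g : ZMod n) ∉ E) :
    ∃ (m : ℕ) (y : ZMod n), 1 ≤ m ∧ y ≠ 0 ∧ (π ^ m) y ∈ E ∧
      (y - g = 0 ∨ (π ^ m) (y - g) ∉ E) ∧ m + y.val ≤ n - 1 := by
  classical
  by_contra hcon
  have hn : 3 ≤ n := by omega
  have hGval : (g : ZMod n).val = g := ZMod.val_cast_of_lt (by omega)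
  have star : ∀ (m : ℕ) (y : ZMod n), 1 ≤ m → y ≠ 0 → (π ^ m) y ∈ E → m + y.val ≤ n - 1 →
      y - (g : ZMod n) ≠ 0 ∧ (π ^ m) (y - (g : ZMod n)) ∈ E := by
    intro m y hm hy hE hle
    by_contra h
    apply hcon
    refine ⟨m, y, hm, hy, hE, ?_, hle⟩
    by_cases h0 : y - (g : ZMod n) = 0
    · exact Or.inl h0
    · exact Or.inr (fun h1 => h ⟨h0, h1⟩)
  have hG0 : (g : ZMod n) ≠ 0 := by
    intro h
    rw [h, ZMod.val_zero] at hGval
    omega
  have hdval : (-(g : ZMod n)).val = n - g := by
    have : (-(g : ZMod n)) = ((n - g : ℕ) : ZMod n) := by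
      rw [Nat.cast_sub (by omega), ZMod.natCast_self, zero_sub]
    rw [this]
    exact ZMod.val_cast_of_lt (by omega)
  set P : ℕ → ZMod n := fun j => (π ^ j) (g : ZMod n) with hP
  have hPadd : ∀ i j, P (i + j) = (π ^ i) (P j) := by
    intro i j
    simp only [hP, pow_add, Equiv.Perm.mul_apply]
  have hP0 : P 0 = (g : ZMod n) := by simp [hP]
  set l : ℕ := Function.minimalPeriod (⇑π) (g : ZMod n) with hl
  have hlpos : 0 < l := Function.minimalPeriod_pos_of_mem_periodicPts
    (π.injective.mem_periodicPts _)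
  have hPl : P l = (g : ZMod n) := by
    have h := Function.iterate_minimalPeriod (f := ⇑π) (x := (g : ZMod n))
    rw [Equiv.Perm.iterate_eq_pow] at h
    exact h
  have hPinj : ∀ i j, i < l → j < l → P i = P j → i = j := by
    intro i j hi hj hij
    have h := Function.iterate_injOn_Iio_minimalPeriod (f := ⇑π) (x := (g : ZMod n))
    apply h hi hj
    show (⇑π)^[i] (g : ZMod n) = (⇑π)^[j] (g : ZMod n)
    rw [Equiv.Perm.iterate_eq_pow, Equiv.Perm.iterate_eq_pow]
    exact hij
  have hPlk : ∀ k, P (l * k) = (g : ZMod n) := by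
    intro k
    induction k with
    | zero => rw [mul_zero, hP0]
    | succ k ih =>
      rw [mul_add, mul_one, add_comm, hPadd, ih]
      exact hPl
  set C : Finset (ZMod n) := (Finset.range l).image P with hC
  have hCcard : C.card = l := by
    rw [hC, Finset.card_image_of_injOn, Finset.card_range]
    intro i hi j hj hij
    exact hPinj i j (Finset.mem_range.1 hi) (Finset.mem_range.1 hj) hij
  have hPC : ∀ k, P k ∈ C := by
    intro k
    have h1 : P k = P (k % l) := by
      conv_lhs => rw [← Nat.mod_add_div k l, hPadd, hPlk]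
    rw [h1, hC]
    exact Finset.mem_image_of_mem _ (Finset.mem_range.2 (Nat.mod_lt _ hlpos))
  have hfix : ∀ (z : ZMod n) (k : ℕ), π z = z → (π ^ k) z = z := by
    intro z k hz
    induction k with
    | zero => simp
    | succ k ih => rw [pow_succ, Equiv.Perm.mul_apply, hz, ih]
  have h0C : (0 : ZMod n) ∉ C := by
    intro h
    rw [hC, Finset.mem_image] at h
    obtain ⟨k, _, hk⟩ := h
    have h1 : (π ^ k) (g : ZMod n) = (π ^ k) 0 := by
      rw [hfix 0 k hπ]
      exact hk
    exact hG0 ((π ^ k).injective h1)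
  have hdC : (-(g : ZMod n)) ∉ C := by
    intro h
    rw [hC, Finset.mem_image] at h
    obtain ⟨k, _, hk⟩ := h
    have h1 : (π ^ k) (g : ZMod n) = (π ^ k) (-(g : ZMod n)) := by
      rw [hfix _ k hπd]
      exact hk
    have h2 := (π ^ k).injective h1
    have h3 := congrArg ZMod.val h2
    rw [hGval, hdval] at h3
    omega
  have hd0 : (-(g : ZMod n)) ≠ 0 := neg_ne_zero.2 hG0
  have hcompl : C.card + (Cᶜ).card = n := by
    rw [Finset.card_add_card_compl, ZMod.card]
  have hpair : ({0, -(g : ZMod n)} : Finset (ZMod n)) ⊆ Cᶜ := by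
    intro z hz
    rw [Finset.mem_insert, Finset.mem_singleton] at hz
    rw [Finset.mem_compl]
    rcases hz with rfl | rfl
    · exact h0C
    · exact hdC
  have hpc : ({0, -(g : ZMod n)} : Finset (ZMod n)).card = 2 := Finset.card_pair hd0.symm
  have hl2 : l + 2 ≤ n := by
    have := Finset.card_le_card hpair
    omega
  have F1 : ∀ m, 1 ≤ m → P m ∈ E → n ≤ m + g := by
    intro m hm hmE
    by_contra hlt
    have h := (star m (g : ZMod n) hm hG0 hmE (by rw [hGval]; omega)).1
    exact h (sub_self _)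
  have hlg : n ≤ l + g := F1 l hlpos (by rw [hPl]; exact hgE)
  have hya : ∀ a, l + g - n < a → a < g → ((g - a : ℕ) : ZMod n).val = g - a := by
    intro a _ _
    exact ZMod.val_cast_of_lt (by omega)
  have hxa' : ∀ a, l + g - n < a → a < g → -(a : ZMod n) = ((n - a : ℕ) : ZMod n) := by
    intro a _ _
    rw [Nat.cast_sub (by omega), ZMod.natCast_self, zero_sub]
  have hxa : ∀ a, l + g - n < a → a < g → (-(a : ZMod n)).val = n - a := by
    intro a h1 h2
    rw [hxa' a h1 h2]
    exact ZMod.val_cast_of_lt (by omega)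
  have hsub : ∀ a, a < g → ((g - a : ℕ) : ZMod n) - (g : ZMod n) = -(a : ZMod n) := by
    intro a ha
    rw [Nat.cast_sub ha.le]
    ring
  have notboth : ∀ a, l + g - n < a → a < g → ((g - a : ℕ) : ZMod n) ∈ C → -(a : ZMod n) ∈ C →
      False := by
    intro a ha1 ha2 hyC hxC
    have hy0 : ((g - a : ℕ) : ZMod n) ≠ 0 := by
      intro h
      have := hya a ha1 ha2
      rw [h, ZMod.val_zero] at this
      omega
    rw [hC, Finset.mem_image] at hyC hxC
    obtain ⟨i, hi, hyi⟩ := hyC
    obtain ⟨j, hj, hxj⟩ := hxC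
    rw [Finset.mem_range] at hi hj
    have hij : i ≠ j := by
      rintro rfl
      rw [hyi] at hxj
      have h1 := hsub a ha2
      rw [← hxj] at h1
      exact hG0 (sub_eq_self.1 h1)
    obtain ⟨s, hs1, hsl, hs⟩ : ∃ s, 1 ≤ s ∧ s < l ∧ (π ^ s) (P i) = P j := by
      rcases lt_or_gt_of_ne hij with h | h
      · refine ⟨j - i, by omega, by omega, ?_⟩
        rw [← hPadd]
        congr 1
        omega
      · refine ⟨j + l - i, by omega, by omega, ?_⟩
        rw [← hPadd]
        have : j + l - i + i = j + l := by omega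
        rw [this, hPadd, hPl]
    have key : ∀ k, k < l → P k ∈ E → (π ^ s) (P k) ∈ E := by
      intro k hk hkE
      obtain ⟨m, hm1, hml, hm⟩ : ∃ m, 1 ≤ m ∧ m ≤ l ∧ (π ^ m) (P i) = P k := by
        rcases lt_or_ge i k with h | h
        · refine ⟨k - i, by omega, by omega, ?_⟩
          rw [← hPadd]
          congr 1
          omega
        · refine ⟨k + l - i, by omega, by omega, ?_⟩
          rw [← hPadd]
          have : k + l - i + i = k + l := by omega
          rw [this, hPadd, hPl]
      have h1 := (star m (P i) hm1 (by rw [hyi]; exact hy0) (by rw [hm]; exact hkE)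
        (by rw [hyi, hya a ha1 ha2]; omega)).2
      rw [hyi, hsub a ha2, ← hxj, ← hs] at h1
      rw [← hm, ← Equiv.Perm.mul_apply, ← pow_add, add_comm, pow_add, Equiv.Perm.mul_apply]
      exact h1
    have hall : ∀ j, P (s * j) ∈ E := by
      intro j
      induction j with
      | zero => rw [mul_zero, hP0]; exact hgE
      | succ j ih =>
        rw [mul_add, mul_one, add_comm, hPadd]
        have h1 := hPC (s * j)
        rw [hC, Finset.mem_image] at h1
        obtain ⟨k, hk, hk2⟩ := h1
        rw [← hk2] at ih ⊢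
        exact key k (Finset.mem_range.1 hk) ih
    by_cases hsn : s + g < n
    · have h1 := hall 1
      rw [mul_one] at h1
      have := F1 s hs1 h1
      omega
    · have h1 := hall (l - 1)
      have h2 : s * (l - 1) = (l - s) + l * (s - 1) := aux_23279 hs1 hsl
      rw [h2, hPadd, hPlk] at h1
      have h3 := F1 (l - s) (by omega) h1
      omega
  -- counting
  set e : ℕ → ZMod n := fun a => if ((g - a : ℕ) : ZMod n) ∈ C then -(a : ZMod n) else
    ((g - a : ℕ) : ZMod n) with he
  have heC : ∀ a, l + g - n < a → a < g → e a ∉ C := by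
    intro a h1 h2 h3
    simp only [he] at h3
    split_ifs at h3 with h4
    · exact notboth a h1 h2 h4 h3
    · exact h4 h3
  have heval : ∀ a, l + g - n < a → a < g → (e a).val = g - a ∨ (e a).val = n - a := by
    intro a h1 h2
    simp only [he]
    split_ifs with h4
    · exact Or.inr (hxa a h1 h2)
    · exact Or.inl (hya a h1 h2)
  have hcount : ((Finset.Ioo (l + g - n) g).image e) ⊆ Cᶜ \ {0, -(g : ZMod n)} := by
    intro z hz
    rw [Finset.mem_image] at hz
    obtain ⟨a, ha, rfl⟩ := hz
    rw [Finset.mem_Ioo] at ha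
    rw [Finset.mem_sdiff, Finset.mem_compl, Finset.mem_insert, Finset.mem_singleton]
    refine ⟨heC a ha.1 ha.2, ?_⟩
    rintro (h | h)
    · have h1 := heval a ha.1 ha.2
      rw [h, ZMod.val_zero] at h1
      omega
    · have h1 := heval a ha.1 ha.2
      rw [h, hdval] at h1
      omega
  have hcard1 : ((Finset.Ioo (l + g - n) g).image e).card = g - (l + g - n) - 1 := by
    rw [Finset.card_image_of_injOn, Nat.card_Ioo]
    intro a ha a' ha' haa
    rw [Finset.mem_coe, Finset.mem_Ioo] at ha ha'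
    have h1 := heval a ha.1 ha.2
    have h2 := heval a' ha'.1 ha'.2
    have haa' : e a = e a' := haa
    rw [haa'] at h1
    omega
  have hcard2 : (Cᶜ \ {0, -(g : ZMod n)}).card + 2 = (Cᶜ).card := by
    rw [← hpc, Finset.card_sdiff_add_card_eq_card hpair]
  have h3 := Finset.card_le_card hcount
  omega

end Pool.Agent.Helper597.Don85

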