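import Pool.Agent.Helper597.Don85.Defs

set_option autoImplicit false

namespace Pool.Agent.Helper597.Don85



theorem red_step {n : ℕ} [NeZero n] (π : Equiv.Perm (ZMod n)) (d : ZMod n)
    (B : Finset (ZMod n) → ℕ → Prop) (hB : Cost π d B) (hπ : π 0 = 0)
    (U : Finset (ZMod n)) (y : ZMod n) (hy : y ∈ U) (hyd : y + d ∉ U) :
    (re π (sh U y)).card + 1 = U.card ∧
    ∀ c, B (re π (sh U y)) c → B U (c + (y.val + 1)) := by
  have h0 : (0 : ZMod n) ∈ sh U y := by
    rw [sh, Finset.mem_filter, zero_add]
    exact ⟨Finset.mem_univ _, hy⟩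
  have hd : d ∉ sh U y := by
    rw [sh, Finset.mem_filter, add_comm]
    exact fun h => hyd h.2
  constructor
  · have h1 : (sh U y).card = U.card := by
      apply Finset.card_bij (fun x _ => x + y)
      · intro x hx
        exact (Finset.mem_filter.mp hx).2
      · intro a _ b _ h
        exact add_right_cancel h
      · intro b hb
        refine ⟨b - y, ?_, sub_add_cancel b y⟩
        rw [sh, Finset.mem_filter, sub_add_cancel]
        exact ⟨Finset.mem_univ _, hb⟩
    have h2 : (re π (sh U y)).card = ((sh U y).erase 0).card := by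
      apply Finset.card_bij (fun x _ => π x)
      · intro x hx
        have hx' := (Finset.mem_filter.mp hx).2
        rw [Finset.mem_erase]
        refine ⟨fun h => hx'.1 ?_, hx'.2⟩
        apply π.injective
        rw [h, hπ]
      · intro a _ b _ h
        exact π.injective h
      · intro b hb
        rw [Finset.mem_erase] at hb
        refine ⟨π.symm b, ?_, π.apply_symm_apply b⟩
        rw [re, Finset.mem_filter, π.apply_symm_apply]
        refine ⟨Finset.mem_univ _, fun h => hb.1 ?_, hb.2⟩
        rw [← π.apply_symm_apply b, h, hπ]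
    rw [h2, Finset.card_erase_add_one h0, h1]
  · intro c hc
    have h1 := hB.rot U y (c + 1) (hB.rem _ c h0 hd hc)
    have e : c + (y.val + 1) = c + 1 + y.val := by ring
    rw [e]
    exact h1

end Pool.Agent.Helper597.Don85
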