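import Pool.Agent.Helper597.Don85.Defs

set_option autoImplicit false

namespace Pool.Agent.Helper597.Don85



theorem walk {n : ℕ} [NeZero n] (d : ZMod n) (U : Finset (ZMod n)) (x : ZMod n) (j : ℕ)
    (hx : x ∈ U) (hj : x + j • d ∉ U) : ∃ i < j, x + i • d ∈ U ∧ x + (i + 1) • d ∉ U := by
  induction j with
  | zero => simp [hx] at hj
  | succ j ih =>
    by_cases h : x + j • d ∈ U
    · exact ⟨j, Nat.lt_succ_self j, h, hj⟩
    · obtain ⟨i, hi, h1, h2⟩ := ih h
      exact ⟨i, hi.trans (Nat.lt_succ_self j), h1, h2⟩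

end Pool.Agent.Helper597.Don85
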