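import Pool.Agent.Helper597.Don85.Defs

set_option autoImplicit false

namespace Pool.Agent.Helper597.Don85



theorem cost_phi {n : ℕ} [NeZero n] (π : Equiv.Perm (ZMod n)) (d : ZMod n)
    (B : Finset (ZMod n) → ℕ → Prop) (hB : Cost π d B) (hπ : π 0 = 0) (hπd : π d = d)
    (E : Finset (ZMod n)) (h0 : (0 : ZMod n) ∈ E) (hdE : d ∉ E) (m : ℕ) (hm : 1 ≤ m) (c : ℕ)
    (h : B (Finset.univ.filter (fun x => x ≠ 0 ∧ (π ^ m) x ∈ E)) c) : B E (c + m) := by
  have hp0 : ∀ j : ℕ, (π ^ j) 0 = 0 := fun j => by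
    induction j with
    | zero => rfl
    | succ j ih => rw [pow_succ, Equiv.Perm.mul_apply, hπ, ih]
  have hpd : ∀ j : ℕ, (π ^ j) d = d := fun j => by
    induction j with
    | zero => rfl
    | succ j ih => rw [pow_succ, Equiv.Perm.mul_apply, hπd, ih]
  have hm0 : ∀ j : ℕ, (0 : ZMod n) ∈ Finset.univ.filter (fun x => (π ^ j) x ∈ E) := by
    intro j
    rw [Finset.mem_filter, hp0]
    exact ⟨Finset.mem_univ _, h0⟩
  have hL : ∀ j c : ℕ, B (Finset.univ.filter (fun x => (π ^ j) x ∈ E)) c → B E (c + j) := by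
    intro j
    induction j with
    | zero =>
      intro c hc
      have : Finset.univ.filter (fun x => (π ^ 0) x ∈ E) = E := by
        ext x
        simp
      rw [this] at hc
      exact hc
    | succ j ih =>
      intro c hc
      have h1 : ke π (Finset.univ.filter (fun x => (π ^ j) x ∈ E))
          = Finset.univ.filter (fun x => (π ^ (j + 1)) x ∈ E) := by
        ext x
        unfold ke
        rw [Finset.mem_filter, Finset.mem_filter, Finset.mem_filter, pow_succ,
          Equiv.Perm.mul_apply]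
        simp
      have h2 := hB.keep _ c (hm0 j) (by rw [h1]; exact hc)
      have h3 := ih (c + 1) h2
      rw [show c + (j + 1) = c + 1 + j by ring]
      exact h3
  obtain ⟨j, rfl⟩ : ∃ j, m = j + 1 := ⟨m - 1, by omega⟩
  have h1 : re π (Finset.univ.filter (fun x => (π ^ j) x ∈ E))
      = Finset.univ.filter (fun x => x ≠ 0 ∧ (π ^ (j + 1)) x ∈ E) := by
    ext x
    unfold re
    rw [Finset.mem_filter, Finset.mem_filter, Finset.mem_filter, pow_succ,
      Equiv.Perm.mul_apply]
    simp
  have hd' : d ∉ Finset.univ.filter (fun x => (π ^ j) x ∈ E) := by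
    rw [Finset.mem_filter, hpd]
    exact fun hh => hdE hh.2
  have h2 := hB.rem _ c (hm0 j) hd' (by rw [h1]; exact h)
  rw [show c + (j + 1) = c + 1 + j by ring]
  exact hL j (c + 1) h2

end Pool.Agent.Helper597.Don85
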