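import Pool.Agent.Helper597.Don85.Defs
import Pool.Agent.Helper597.Don85.P_red_step
import Pool.Agent.Helper597.Don85.P_cost_phi

set_option autoImplicit false

namespace Pool.Agent.Helper597.Don85



theorem two_steps {n : ℕ} [NeZero n] {π : Equiv.Perm (ZMod n)} {d : ZMod n}
    {B : Finset (ZMod n) → ℕ → Prop} {g M : ℕ} (w : W π d B g M) (E : Finset (ZMod n))
    (h0 : (0 : ZMod n) ∈ E) (hd : d ∉ E) (C m : ℕ) (y : ZMod n) (hm : 1 ≤ m) (hy : y ≠ 0)
    (hyE : (π ^ m) y ∈ E) (hyd : y + d = 0 ∨ (π ^ m) (y + d) ∉ E) (hmy : m + y.val ≤ n - 1) :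
    ∃ V : Finset (ZMod n), V.card + 2 = E.card ∧ (∀ c, B V c → B E (c + n)) := by
  have hpow0 : ∀ k : ℕ, (π ^ k) 0 = 0 := by
    intro k
    induction k with
    | zero => rfl
    | succ k ih => rw [pow_succ, Equiv.Perm.mul_apply, w.zero, ih]
  have hm0 : (π ^ m) (0 : ZMod n) = 0 := hpow0 m
  -- the set Phi
  have hcard : (re (π ^ m) E).card + 1 = E.card := by
    have h0n : (0 : ZMod n) ∉ re (π ^ m) E := by
      simp [re]
    rw [← Finset.card_insert_of_notMem h0n]
    have himg : (insert 0 (re (π ^ m) E)).image (π ^ m) = E := by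
      ext z
      simp only [Finset.mem_image, Finset.mem_insert, re, Finset.mem_filter, Finset.mem_univ,
        true_and]
      constructor
      · rintro ⟨x, hx, rfl⟩
        rcases hx with rfl | hx
        · rw [hm0]; exact h0
        · exact hx.2
      · intro hz
        refine ⟨(π ^ m).symm z, ?_, by simp⟩
        by_cases h : (π ^ m).symm z = 0
        · exact Or.inl h
        · exact Or.inr ⟨h, by simpa using hz⟩
    conv_rhs => rw [← himg]
    rw [Finset.card_image_of_injective _ (π ^ m).injective]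
  have hyP : y ∈ re (π ^ m) E := by
    simp only [re, Finset.mem_filter, Finset.mem_univ, true_and]
    exact ⟨hy, hyE⟩
  have hydP : y + d ∉ re (π ^ m) E := by
    simp only [re, Finset.mem_filter, Finset.mem_univ, true_and]
    rintro ⟨h1, h2⟩
    rcases hyd with h | h
    · exact h1 h
    · exact h h2
  obtain ⟨hc1, hc2⟩ := red_step π d B w.cost w.zero (re (π ^ m) E) y hyP hydP
  refine ⟨re π (sh (re (π ^ m) E) y), by omega, ?_⟩
  intro c hc
  have h1 := hc2 c hc
  have h2 : B E (c + (y.val + 1) + m) :=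
    cost_phi π d B w.cost w.zero w.fix E h0 hd m hm (c + (y.val + 1)) h1
  have hn : 1 ≤ n := Nat.one_le_iff_ne_zero.mpr (NeZero.ne n)
  exact w.cost.mono E _ _ h2 (by omega)

end Pool.Agent.Helper597.Don85
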