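import Pool.Agent.Helper597.Don85.Defs
import Pool.Agent.Helper597.Don85.P_red_step
import Pool.Agent.Helper597.Don85.P_claimA
import Pool.Agent.Helper597.Don85.P_red_in_K
import Pool.Agent.Helper597.Don85.P_arc_count
import Pool.Agent.Helper597.Don85.P_only_m1
import Pool.Agent.Helper597.Don85.P_two_steps

set_option autoImplicit false

namespace Pool.Agent.Helper597.Don85



theorem ca1_mem_sh {n : ℕ} [NeZero n] (T : Finset (ZMod n)) (y x : ZMod n) :
    x ∈ sh T y ↔ x + y ∈ T := by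
  simp [sh]

theorem ca1_card_sh {n : ℕ} [NeZero n] (T : Finset (ZMod n)) (y : ZMod n) :
    (sh T y).card = T.card := by
  apply Finset.card_bij (fun x _ => x + y)
  · intro x hx
    exact (ca1_mem_sh T y x).1 hx
  · intro a _ b _ hab
    exact add_right_cancel hab
  · intro b hb
    refine ⟨b - y, ?_, ?_⟩
    · rw [ca1_mem_sh, sub_add_cancel]
      exact hb
    · exact sub_add_cancel b y

theorem ca1_two {n : ℕ} [NeZero n] {π : Equiv.Perm (ZMod n)} {d : ZMod n}
    {B : Finset (ZMod n) → ℕ → Prop} {g M : ℕ} (w : W π d B g M)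
    (hdg : d = -(g : ZMod n)) (E : Finset (ZMod n)) (h0 : (0 : ZMod n) ∈ E) (hd : d ∉ E)
    (hg : (g : ZMod n) ∈ E) :
    ∃ V : Finset (ZMod n), V.card + 2 = E.card ∧ (∀ c, B V c → B E (c + n)) := by
  have hg1 : 1 ≤ g := by have := w.hg; omega
  have h3g : 3 * g ≤ n := by
    rw [w.hn, mul_comm 3]
    exact Nat.mul_le_mul_left g w.hM
  have hfix : π (-(g : ZMod n)) = -(g : ZMod n) := by
    rw [← hdg]
    exact w.fix
  have hdE : -(g : ZMod n) ∉ E := by rw [← hdg]; exact hd
  obtain ⟨m, y, h1, h2, h3, h4, h5⟩ := claimA π g hg1 h3g w.zero hfix E hg hdE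
  refine two_steps w E h0 hd 0 m y h1 h2 h3 ?_ h5
  rw [hdg, ← sub_eq_add_neg]
  exact h4

theorem caseA1 {n : ℕ} [NeZero n] {π : Equiv.Perm (ZMod n)} {d : ZMod n}
    {B : Finset (ZMod n) → ℕ → Prop} {g M : ℕ} (w : W π d B g M) (hM : 4 ≤ M)
    (hdg : d = -(g : ZMod n))
    (k N : ℕ) (hk : M ∣ k) (hk2 : M ≤ k) (hN : (M + 1) * n ≤ N)
    (IH : ∀ (s : ℕ) (V : Finset (ZMod n)), 1 ≤ s → s ≤ M → V.card + s = k → B V (N - s * n))
    (T : Finset (ZMod n)) (hT : T.card = k) (h0 : (0 : ZMod n) ∈ T)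
    (y : ZMod n) (hy : y ∉ T) (hyK : y ∈ AddSubgroup.zmultiples d) :
    B T (N - (g + 1)) := by
  by_contra hbad
  have hMpos : 0 < M := by omega
  have hg3 := w.hg
  have hnpos : 0 < n := Nat.pos_of_ne_zero (NeZero.ne n)
  have hgn : g ∣ n := ⟨M, w.hn⟩
  have hN5 : 5 * n ≤ N := by
    refine le_trans ?_ hN
    exact Nat.mul_le_mul_right n (by omega)
  have hgleN : 3 * g ≤ n := by
    have := w.hn
    rw [this, mul_comm 3]
    exact Nat.mul_le_mul_left g w.hM
  -- (0)
  obtain ⟨h, hhT, hhK, hhd, hhn⟩ := red_in_K w T 0 y h0 (zero_mem _) hy hyK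
  obtain ⟨hr1, hr2⟩ := red_step π d B w.cost w.zero T h hhT hhd
  have hB1 : B T (N - 1 * n + (h.val + 1)) := hr2 _ (IH 1 _ le_rfl (by omega) (by omega))
  have hgh : g ∣ h.val := (w.mem h).1 hhK
  have hval : h.val + g = n := by
    by_contra hne
    have h1 : n - 1 ≤ h.val + g := by
      by_contra hcon
      apply hbad
      apply w.cost.mono T _ _ hB1
      omega
    have h2 : h.val + g = n - 1 := by omega
    have h3 : g ∣ h.val + g := Dvd.dvd.add hgh (dvd_refl g)
    have h4 : g ∣ n - (h.val + g) := Nat.dvd_sub hgn h3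
    have h5 : n - (h.val + g) = 1 := by omega
    rw [h5] at h4
    have := Nat.le_of_dvd one_pos h4
    omega
  have hhg : h + (g : ZMod n) = 0 := by
    have h1 : ((h.val + g : ℕ) : ZMod n) = 0 := by rw [hval, ZMod.natCast_self]
    rw [Nat.cast_add, ZMod.natCast_zmod_val] at h1
    exact h1
  -- (1)
  have hE0card := ca1_card_sh T h
  obtain ⟨V1, hV1, hV1B⟩ := ca1_two w hdg (sh T h)
    (by rw [ca1_mem_sh, zero_add]; exact hhT)
    (by rw [ca1_mem_sh, add_comm]; exact hhd)
    (by rw [ca1_mem_sh, add_comm, hhg]; exact h0)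
  rw [hE0card, hT] at hV1
  have hV1not : ¬ B V1 (N - 3 * n + (n - 1)) := by
    intro hB
    apply hbad
    have h1 := w.cost.rot T h _ (hV1B _ hB)
    apply w.cost.mono T _ _ h1
    omega
  -- (2)
  have honly := only_m1 w V1 (N - 3 * n) (fun V hV => IH 3 V (by omega) (by omega) (by omega)) hV1not
  have hE2card := ca1_card_sh V1 (-1)
  have hE2 : ∀ x ∈ sh V1 (-1), x ≠ 0 → x + d ∈ sh V1 (-1) := by
    intro x hx hx0
    rw [ca1_mem_sh] at hx ⊢
    by_contra hcon
    apply hx0
    have h1 := honly (x + -1) hx (by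
      intro h2
      apply hcon
      have : x + d + -1 = x + -1 + d := by ring
      rw [this]
      exact h2)
    have h2 : x + -1 = 0 + -1 := by rw [h1, zero_add]
    exact add_right_cancel h2
  have harc := arc_count w (sh V1 (-1)) 2 (by norm_num) (by omega) hE2 (by
    rw [hE2card, hV1]
    exact hk)
  have hE2_0 : (0 : ZMod n) ∈ sh V1 (-1) := by
    have := (harc 0 hMpos).2 (by omega)
    rwa [zero_smul, neg_zero] at this
  have hE2_g : (g : ZMod n) ∈ sh V1 (-1) := by
    have := (harc 1 (by omega)).2 (by omega)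
    rwa [one_smul, hdg, neg_neg] at this
  have hMd : M • d = 0 := by
    rw [hdg, nsmul_eq_mul, mul_neg, ← Nat.cast_mul, mul_comm M g, ← w.hn, ZMod.natCast_self, neg_zero]
  have hE2_d : d ∉ sh V1 (-1) := by
    intro hd
    have h1 : -((M - 1) • d) = d := by
      have h2 : (M - 1) • d + d = 0 := by
        rw [← succ_nsmul, Nat.sub_add_cancel (by omega)]
        exact hMd
      exact neg_eq_of_add_eq_zero_right h2
    have h3 := (harc (M - 1) (by omega)).1 (by rw [h1]; exact hd)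
    omega
  -- (3)
  obtain ⟨V2, hV2, hV2B⟩ := ca1_two w hdg (sh V1 (-1)) hE2_0 hE2_d hE2_g
  rw [hE2card] at hV2
  have h1 := hV2B _ (IH 4 V2 (by omega) (by omega) (by omega))
  have h2 := w.cost.rot V1 (-1) _ h1
  have h3 : (-1 : ZMod n).val < n := ZMod.val_lt _
  apply hV1not
  apply w.cost.mono V1 _ _ h2
  omega

end Pool.Agent.Helper597.Don85
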