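import Pool.Agent.Helper597.Don85.Defs
import Pool.Agent.Helper597.Don85.P_red_step
import Pool.Agent.Helper597.Don85.P_red_in_K
import Pool.Agent.Helper597.Don85.P_caseA1
import Pool.Agent.Helper597.DonA2

set_option autoImplicit false

namespace Pool.Agent.Helper597.Don85

/-- Two removals from a set which contains `0`, `g`, but not `-g`, and has at least six elements,
when the subgroup has three elements, at a total cost of at most `n - 1`. -/
theorem ca13_two {n : ℕ} [NeZero n] {π : Equiv.Perm (ZMod n)} {d : ZMod n}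
    {B : Finset (ZMod n) → ℕ → Prop} {g M : ℕ} (w : W π d B g M) (hM : M = 3)
    (hdg : d = -(g : ZMod n)) (E : Finset (ZMod n)) (h0 : (0 : ZMod n) ∈ E) (hd : d ∉ E)
    (hg : (g : ZMod n) ∈ E) (h6 : 6 ≤ E.card) :
    ∃ V : Finset (ZMod n), V.card + 2 = E.card ∧ (∀ c, B V c → B E (c + (n - 1))) := by
  have hg1 : 1 ≤ g := by have := w.hg; omega
  have h3g : n = 3 * g := by
    rw [w.hn, hM, mul_comm]
  have hfix : π (-(g : ZMod n)) = -(g : ZMod n) := by
    rw [← hdg]
    exact w.fix
  have hdE : -(g : ZMod n) ∉ E := by rw [← hdg]; exact hd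
  obtain ⟨m, y, hm, hy, hyE, hyd', hmy⟩ :=
    Pool.Agent.Helper597.DonA2.claimA2 hg1 h3g π w.zero hfix E h0 hg hdE h6
  have hyd : y + d = 0 ∨ (π ^ m) (y + d) ∉ E := by
    rw [hdg, ← sub_eq_add_neg]
    exact hyd'
  have hpow0 : ∀ k : ℕ, (π ^ k) 0 = 0 := by
    intro k
    induction k with
    | zero => rfl
    | succ k ih => rw [pow_succ, Equiv.Perm.mul_apply, w.zero, ih]
  have hm0 : (π ^ m) (0 : ZMod n) = 0 := hpow0 m
  -- the set Phi
  have hcard : (re (π ^ m) E).card + 1 = E.card := by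
    have h0n : (0 : ZMod n) ∉ re (π ^ m) E := by
      simp [re]
    rw [← Finset.card_insert_of_notMem h0n]
    have himg : (insert 0 (re (π ^ m) E)).image (π ^ m) = E := by
      ext z
      simp only [Finset.mem_image, Finset.mem_insert, re, Finset.mem_filter, Finset.mem_univ,
        true_and]
      constructor
      · rintro ⟨x, hx, rfl⟩
        rcases hx with rfl | hx
        · rw [hm0]; exact h0
        · exact hx.2
      · intro hz
        refine ⟨(π ^ m).symm z, ?_, by simp⟩
        by_cases h : (π ^ m).symm z = 0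
        · exact Or.inl h
        · exact Or.inr ⟨h, by simpa using hz⟩
    conv_rhs => rw [← himg]
    rw [Finset.card_image_of_injective _ (π ^ m).injective]
  have hyP : y ∈ re (π ^ m) E := by
    simp only [re, Finset.mem_filter, Finset.mem_univ, true_and]
    exact ⟨hy, hyE⟩
  have hydP : y + d ∉ re (π ^ m) E := by
    simp only [re, Finset.mem_filter, Finset.mem_univ, true_and]
    rintro ⟨h1, h2⟩
    rcases hyd with h | h
    · exact h1 h
    · exact h h2
  obtain ⟨hc1, hc2⟩ := red_step π d B w.cost w.zero (re (π ^ m) E) y hyP hydP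
  refine ⟨re π (sh (re (π ^ m) E) y), by omega, ?_⟩
  intro c hc
  have h1 := hc2 c hc
  have h2 : B E (c + (y.val + 1) + m) :=
    cost_phi π d B w.cost w.zero w.fix E h0 hd m hm (c + (y.val + 1)) h1
  have hn : 3 ≤ n := by omega
  exact w.cost.mono E _ _ h2 (by omega)

theorem caseA13 {n : ℕ} [NeZero n] {π : Equiv.Perm (ZMod n)} {d : ZMod n}
    {B : Finset (ZMod n) → ℕ → Prop} {g M : ℕ} (w : W π d B g M) (hM : M = 3)
    (hdg : d = -(g : ZMod n))
    (k N : ℕ) (hk6 : 6 ≤ k) (hN : (M + 1) * n ≤ N)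
    (IH : ∀ (s : ℕ) (V : Finset (ZMod n)), 1 ≤ s → s ≤ M → V.card + s = k → B V (N - s * n))
    (T : Finset (ZMod n)) (hT : T.card = k) (h0 : (0 : ZMod n) ∈ T)
    (y : ZMod n) (hy : y ∉ T) (hyK : y ∈ AddSubgroup.zmultiples d) :
    B T (N - (g + 1)) := by
  by_contra hbad
  have hMpos : 0 < M := by omega
  have hg3 := w.hg
  have hnpos : 0 < n := Nat.pos_of_ne_zero (NeZero.ne n)
  have hgn : g ∣ n := ⟨M, w.hn⟩
  have hN4 : 4 * n ≤ N := by
    refine le_trans ?_ hN
    exact Nat.mul_le_mul_right n (by omega)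
  have hgleN : 3 * g ≤ n := by
    have := w.hn
    rw [this, mul_comm 3]
    exact Nat.mul_le_mul_left g w.hM
  -- (0)
  obtain ⟨h, hhT, hhK, hhd, hhn⟩ := red_in_K w T 0 y h0 (zero_mem _) hy hyK
  obtain ⟨hr1, hr2⟩ := red_step π d B w.cost w.zero T h hhT hhd
  have hB1 : B T (N - 1 * n + (h.val + 1)) := hr2 _ (IH 1 _ le_rfl (by omega) (by omega))
  have hgh : g ∣ h.val := (w.mem h).1 hhK
  have hval : h.val + g = n := by
    by_contra hne
    have h1 : n - 1 ≤ h.val + g := by
      by_contra hcon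
      apply hbad
      apply w.cost.mono T _ _ hB1
      omega
    have h2 : h.val + g = n - 1 := by omega
    have h3 : g ∣ h.val + g := Dvd.dvd.add hgh (dvd_refl g)
    have h4 : g ∣ n - (h.val + g) := Nat.dvd_sub hgn h3
    have h5 : n - (h.val + g) = 1 := by omega
    rw [h5] at h4
    have := Nat.le_of_dvd one_pos h4
    omega
  have hhg : h + (g : ZMod n) = 0 := by
    have h1 : ((h.val + g : ℕ) : ZMod n) = 0 := by rw [hval, ZMod.natCast_self]
    rw [Nat.cast_add, ZMod.natCast_zmod_val] at h1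
    exact h1
  -- (1)
  have hE0card := ca1_card_sh T h
  obtain ⟨V1, hV1, hV1B⟩ := ca13_two w hM hdg (sh T h)
    (by rw [ca1_mem_sh, zero_add]; exact hhT)
    (by rw [ca1_mem_sh, add_comm]; exact hhd)
    (by rw [ca1_mem_sh, add_comm, hhg]; exact h0)
    (by rw [hE0card, hT]; exact hk6)
  rw [hE0card, hT] at hV1
  have h1 := hV1B _ (IH 2 V1 (by omega) (by omega) (by omega))
  have h2 := w.cost.rot T h _ h1
  apply hbad
  apply w.cost.mono T _ _ h2
  omega

end Pool.Agent.Helper597.Don85
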