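import Pool.Agent.Helper597.Don85.Defs

set_option autoImplicit false

namespace Pool.Agent.Helper597.Don85



theorem shift_gap {n : ℕ} [NeZero n] (π : Equiv.Perm (ZMod n)) (E : Finset (ZMod n))
    (x κ : ZMod n) (l s t a : ℕ) (hx : (π ^ l) x = x) (hκ : κ = (π ^ a) x) (hκE : κ ∈ E)
    (hgap : ∀ m : ℕ, 1 ≤ m → m < t → (π ^ m) κ ∉ E)
    (hinv : ∀ i : ℕ, (π ^ i) x ∈ E ↔ (π ^ (i + s)) x ∈ E) (hs : 1 ≤ s) (hsl : s < l) :
    t ≤ s ∧ t + s ≤ l := by
  have hpow : ∀ m : ℕ, (π ^ m) κ = (π ^ (m + a)) x := by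
    intro m
    rw [hκ, pow_add, Equiv.Perm.mul_apply]
  constructor
  · by_contra h
    have h1 := hgap s hs (by omega)
    rw [hpow] at h1
    have h2 := (hinv a).1 (by rw [← hκ]; exact hκE)
    rw [add_comm] at h2
    exact h1 h2
  · by_contra h
    have h1 := hgap (l - s) (by omega) (by omega)
    rw [hpow] at h1
    apply h1
    rw [hinv]
    have h3 : l - s + a + s = a + l := by omega
    rw [h3, pow_add, Equiv.Perm.mul_apply, hx, ← hκ]
    exact hκE

end Pool.Agent.Helper597.Don85
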