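import Pool.Agent.Helper597.Don85.Defs
import Pool.Agent.Helper597.Don85.P_shift_inv
import Pool.Agent.Helper597.Don85.P_shift_gap

set_option autoImplicit false

namespace Pool.Agent.Helper597.Don85



theorem cfive_same_inj {n : ℕ} [NeZero n] (a b : ℕ) (ha : a < n) (hb : b < n)
    (h : (a : ZMod n) = (b : ZMod n)) : a = b := by
  have := congrArg ZMod.val h
  rwa [ZMod.val_cast_of_lt ha, ZMod.val_cast_of_lt hb] at this

theorem cfive_same_half {n : ℕ} [NeZero n] (π : Equiv.Perm (ZMod n)) (E : Finset (ZMod n))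
    (x κ : ZMod n) (l u g b : ℕ) (hx : (π ^ l) x = x) (hκ : κ = (π ^ b) x) (hκE : κ ∈ E)
    (hgap : ∀ m : ℕ, 1 ≤ m → m < 2 * g → (π ^ m) κ ∉ E)
    (hinv : ∀ i : ℕ, (π ^ i) x ∈ E ↔ (π ^ (i + u)) x ∈ E) (hu : 1 ≤ u) (hul : u < l)
    (hl5 : l < 5 * g) : 2 * u = l := by
  obtain ⟨h1, h2⟩ := shift_gap π E x κ l u (2 * g) b hx hκ hκE hgap hinv hu hul
  by_contra hne
  rcases lt_or_gt_of_ne hne with h | h
  · have hinv' : ∀ i : ℕ, (π ^ i) x ∈ E ↔ (π ^ (i + (l - 2 * u))) x ∈ E := by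
      intro i
      rw [hinv (i + (l - 2 * u)), hinv (i + (l - 2 * u) + u)]
      have h3 : i + (l - 2 * u) + u + u = i + l := by omega
      rw [h3, pow_add, Equiv.Perm.mul_apply, hx]
    have := shift_gap π E x κ l (l - 2 * u) (2 * g) b hx hκ hκE hgap hinv' (by omega) (by omega)
    omega
  · have hinv' : ∀ i : ℕ, (π ^ i) x ∈ E ↔ (π ^ (i + (2 * u - l))) x ∈ E := by
      intro i
      rw [hinv i, hinv (i + u)]
      have h3 : i + u + u = i + (2 * u - l) + l := by omega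
      rw [h3, pow_add _ _ l, Equiv.Perm.mul_apply, hx]
    have := shift_gap π E x κ l (2 * u - l) (2 * g) b hx hκ hκE hgap hinv' (by omega) (by omega)
    omega

theorem cfive_same_reach {n : ℕ} [NeZero n] (π : Equiv.Perm (ZMod n)) (w y x : ZMod n)
    (l i j : ℕ) (hl : 1 ≤ l) (hw : (π ^ l) w = w) (hy : (π ^ i) w = y) (hx : (π ^ j) w = x) :
    ∃ m, x = (π ^ m) y := by
  refine ⟨j + i * (l - 1), ?_⟩
  rw [← hy, ← Equiv.Perm.mul_apply, ← pow_add, ← hx]
  have h1 : j + i * (l - 1) + i = j + l * i := by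
    obtain ⟨k, rfl⟩ : ∃ k, l = k + 1 := ⟨l - 1, by omega⟩
    rw [Nat.add_sub_cancel]
    ring
  rw [h1, pow_add, Equiv.Perm.mul_apply, pow_mul,
    Equiv.Perm.pow_apply_eq_self_of_apply_eq_self hw]

theorem cfive_same_reach_lt {n : ℕ} [NeZero n] (π : Equiv.Perm (ZMod n)) (y x : ZMod n) (l : ℕ)
    (hl : 1 ≤ l) (hy : (π ^ l) y = y) (h : ∃ m, x = (π ^ m) y) (hne : x ≠ y) :
    ∃ u, 1 ≤ u ∧ u < l ∧ x = (π ^ u) y := by
  obtain ⟨m, hm⟩ := h
  have key : (π ^ m) y = (π ^ (m % l)) y := by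
    conv_lhs => rw [← Nat.mod_add_div m l]
    rw [pow_add, Equiv.Perm.mul_apply, pow_mul,
      Equiv.Perm.pow_apply_eq_self_of_apply_eq_self hy]
  refine ⟨m % l, ?_, Nat.mod_lt _ hl, ?_⟩
  · rw [Nat.one_le_iff_ne_zero]
    intro h0
    apply hne
    rw [hm, key, h0]
    rfl
  · rw [hm, key]

theorem cfive_same_claim {n : ℕ} [NeZero n] (π : Equiv.Perm (ZMod n)) (g : ℕ) (hg : 1 ≤ g)
    (hn : n = g * 5) (E : Finset (ZMod n))
    (hE1 : ((g : ℕ) : ZMod n) ∈ E)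
    (R1 : ∀ m : ℕ, 1 ≤ m → m < 2 * g → (π ^ m) ((g : ℕ) : ZMod n) ∉ E)
    (Q1 : ∀ a m : ℕ, 1 ≤ a → a < g → 1 ≤ m → m < 4 * g + a →
      (π ^ m) ((g - a : ℕ) : ZMod n) ∈ E → (π ^ m) ((3 * g - a : ℕ) : ZMod n) ∈ E)
    (Q2 : ∀ a m : ℕ, 1 ≤ a → a < g → 1 ≤ m → m < 2 * g + a →
      (π ^ m) ((3 * g - a : ℕ) : ZMod n) ∈ E → (π ^ m) ((5 * g - a : ℕ) : ZMod n) ∈ E)
    (l : ℕ) (hl4 : 4 * g ≤ l) (hl : (π ^ l) ((g : ℕ) : ZMod n) = ((g : ℕ) : ZMod n))
    (a : ℕ) (ha1 : l - 4 * g + 1 ≤ a) (ha2 : a < g)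
    (hy : ∃ i, (π ^ i) ((g : ℕ) : ZMod n) = ((g - a : ℕ) : ZMod n))
    (hx : ∃ i, (π ^ i) ((g : ℕ) : ZMod n) = ((3 * g - a : ℕ) : ZMod n))
    (hz : ∃ i, (π ^ i) ((g : ℕ) : ZMod n) = ((5 * g - a : ℕ) : ZMod n)) : False := by
  have hl1 : 1 ≤ l := by omega
  have ha0 : 1 ≤ a := by omega
  obtain ⟨iy, hy⟩ := hy
  obtain ⟨ix, hx⟩ := hx
  obtain ⟨iz, hz⟩ := hz
  have hper : ∀ i, (π ^ l) ((π ^ i) ((g : ℕ) : ZMod n)) = (π ^ i) ((g : ℕ) : ZMod n) := by
    intro i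
    rw [← Equiv.Perm.mul_apply, ← pow_add, add_comm, pow_add, Equiv.Perm.mul_apply, hl]
  have hly : (π ^ l) ((g - a : ℕ) : ZMod n) = ((g - a : ℕ) : ZMod n) := by
    rw [← hy]; exact hper _
  have hlx : (π ^ l) ((3 * g - a : ℕ) : ZMod n) = ((3 * g - a : ℕ) : ZMod n) := by
    rw [← hx]; exact hper _
  have hxy : ((3 * g - a : ℕ) : ZMod n) ≠ ((g - a : ℕ) : ZMod n) := by
    intro h
    have := cfive_same_inj _ _ (by omega) (by omega) h
    omega
  have hzx : ((5 * g - a : ℕ) : ZMod n) ≠ ((3 * g - a : ℕ) : ZMod n) := by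
    intro h
    have := cfive_same_inj _ _ (by omega) (by omega) h
    omega
  have hzy : ((5 * g - a : ℕ) : ZMod n) ≠ ((g - a : ℕ) : ZMod n) := by
    intro h
    have := cfive_same_inj _ _ (by omega) (by omega) h
    omega
  obtain ⟨u, hu1, hul, hu⟩ := cfive_same_reach_lt π _ _ l hl1 hly
    (cfive_same_reach π _ _ _ l iy ix hl1 hl hy hx) hxy
  obtain ⟨b, hb⟩ := cfive_same_reach π _ _ ((g : ℕ) : ZMod n) l iy 0 hl1 hl hy rfl
  have hinv : ∀ i : ℕ, (π ^ i) ((g - a : ℕ) : ZMod n) ∈ E ↔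
      (π ^ (i + u)) ((g - a : ℕ) : ZMod n) ∈ E := by
    apply shift_inv π E _ l u hl1 hly
    intro m hm1 hm2 hm
    rw [pow_add, Equiv.Perm.mul_apply, ← hu]
    exact Q1 a m ha0 ha2 hm1 (by omega) hm
  have hul2 := cfive_same_half π E _ _ l u g b hly hb hE1 R1 hinv hu1 hul (by omega)
  obtain ⟨r, hr1, hrl, hr⟩ := cfive_same_reach_lt π _ _ l hl1 hlx
    (cfive_same_reach π _ _ _ l ix iz hl1 hl hx hz) hzx
  obtain ⟨b', hb'⟩ := cfive_same_reach π _ _ ((g : ℕ) : ZMod n) l ix 0 hl1 hl hx rfl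
  have hinvx : ∀ i : ℕ, (π ^ i) ((3 * g - a : ℕ) : ZMod n) ∈ E ↔
      (π ^ (i + u)) ((3 * g - a : ℕ) : ZMod n) ∈ E := by
    intro i
    have h1 : ∀ i : ℕ, (π ^ i) ((3 * g - a : ℕ) : ZMod n) =
        (π ^ (i + u)) ((g - a : ℕ) : ZMod n) := by
      intro i
      rw [pow_add, Equiv.Perm.mul_apply, ← hu]
    rw [h1, h1]
    exact hinv _
  have hinv2 : ∀ i : ℕ, (π ^ i) ((3 * g - a : ℕ) : ZMod n) ∈ E ↔
      (π ^ (i + r)) ((3 * g - a : ℕ) : ZMod n) ∈ E := by
    apply shift_inv π E _ l r hl1 hlx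
    have h1 : ∀ i : ℕ, (π ^ (i + r)) ((3 * g - a : ℕ) : ZMod n) =
        (π ^ i) ((5 * g - a : ℕ) : ZMod n) := by
      intro i
      rw [pow_add, Equiv.Perm.mul_apply, ← hr]
    intro m hm1 hm2 hm
    by_cases hmu : m ≤ u
    · rw [h1]
      exact Q2 a m ha0 ha2 hm1 (by omega) hm
    · push Not at hmu
      have h2 : (π ^ (m - u)) ((3 * g - a : ℕ) : ZMod n) ∈ E := by
        rw [hinvx, Nat.sub_add_cancel hmu.le]
        exact hm
      have h3 := Q2 a (m - u) ha0 ha2 (by omega) (by omega) h2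
      rw [← h1, hinvx] at h3
      have h4 : m - u + r + u = m + r := by omega
      rw [h4] at h3
      exact h3
  have hrl2 := cfive_same_half π E _ _ l r g b' hlx hb' hE1 R1 hinv2 hr1 hrl (by omega)
  have hru : r = u := by omega
  apply hzy
  rw [hr, hu, hru, ← Equiv.Perm.mul_apply, ← pow_add, ← two_mul, hul2, hly]

theorem cfive_same {n : ℕ} [NeZero n] (π : Equiv.Perm (ZMod n)) (g : ℕ) (hg : 1 ≤ g)
    (hn : n = g * 5) (h0 : π 0 = 0) (h2 : π ((2 * g : ℕ) : ZMod n) = ((2 * g : ℕ) : ZMod n))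
    (h4 : π ((4 * g : ℕ) : ZMod n) = ((4 * g : ℕ) : ZMod n)) (E : Finset (ZMod n))
    (hE1 : ((g : ℕ) : ZMod n) ∈ E) (hE3 : ((3 * g : ℕ) : ZMod n) ∈ E)
    (R1 : ∀ m : ℕ, 1 ≤ m → m < 2 * g → (π ^ m) ((g : ℕ) : ZMod n) ∉ E)
    (R3 : ∀ m : ℕ, 1 ≤ m → m < 2 * g → (π ^ m) ((3 * g : ℕ) : ZMod n) ∉ E)
    (Q1 : ∀ a m : ℕ, 1 ≤ a → a < g → 1 ≤ m → m < 4 * g + a →
      (π ^ m) ((g - a : ℕ) : ZMod n) ∈ E → (π ^ m) ((3 * g - a : ℕ) : ZMod n) ∈ E)
    (Q2 : ∀ a m : ℕ, 1 ≤ a → a < g → 1 ≤ m → m < 2 * g + a →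
      (π ^ m) ((3 * g - a : ℕ) : ZMod n) ∈ E → (π ^ m) ((5 * g - a : ℕ) : ZMod n) ∈ E)
    (s : ℕ) (hs : (π ^ s) ((g : ℕ) : ZMod n) = ((3 * g : ℕ) : ZMod n)) : False := by
  classical
  set l : ℕ := Function.minimalPeriod π ((g : ℕ) : ZMod n) with hldef
  have hlpos : 0 < l := Function.minimalPeriod_pos_of_mem_periodicPts
    (Function.Injective.mem_periodicPts π.injective _)
  have hl : (π ^ l) ((g : ℕ) : ZMod n) = ((g : ℕ) : ZMod n) := by
    have := Function.isPeriodicPt_minimalPeriod π ((g : ℕ) : ZMod n)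
    rw [Function.IsPeriodicPt, Function.IsFixedPt, Equiv.Perm.iterate_eq_pow] at this
    exact this
  have hmin : ∀ i j : ℕ, i < l → j < l →
      (π ^ i) ((g : ℕ) : ZMod n) = (π ^ j) ((g : ℕ) : ZMod n) → i = j := by
    intro i j hi hj hij
    rw [← Equiv.Perm.iterate_eq_pow, ← Equiv.Perm.iterate_eq_pow] at hij
    exact (Function.iterate_injOn_Iio_minimalPeriod (f := π) (x := ((g : ℕ) : ZMod n))) hi hj hij
  have hg3 : ((3 * g : ℕ) : ZMod n) ≠ ((g : ℕ) : ZMod n) := by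
    intro h
    have := cfive_same_inj _ _ (by omega) (by omega) h
    omega
  obtain ⟨s', hs1, hsl, hs'⟩ := cfive_same_reach_lt π ((g : ℕ) : ZMod n) ((3 * g : ℕ) : ZMod n) l
    hlpos hl ⟨s, hs.symm⟩ hg3
  have hs2 : 2 * g ≤ s' := by
    by_contra hcon
    push Not at hcon
    apply R1 s' hs1 hcon
    rw [← hs']
    exact hE3
  have hs3 : 2 * g ≤ l - s' := by
    by_contra hcon
    push Not at hcon
    apply R3 (l - s') (by omega) hcon
    rw [hs', ← Equiv.Perm.mul_apply, ← pow_add, Nat.sub_add_cancel hsl.le, hl]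
    exact hE1
  have hl4 : 4 * g ≤ l := by omega
  -- the cycle
  set C : Finset (ZMod n) := (Finset.range l).image (fun i => (π ^ i) ((g : ℕ) : ZMod n)) with hC
  have hCcard : C.card = l := by
    rw [hC, Finset.card_image_of_injOn, Finset.card_range]
    intro i hi j hj hij
    simp only [Finset.coe_range, Set.mem_Iio] at hi hj
    exact hmin i j hi hj hij
  have hCmem : ∀ y ∈ C, ∃ i, (π ^ i) ((g : ℕ) : ZMod n) = y := by
    intro y hy
    rw [hC, Finset.mem_image] at hy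
    obtain ⟨i, _, hi⟩ := hy
    exact ⟨i, hi⟩
  have hfix : ∀ z : ZMod n, π z = z → z ≠ ((g : ℕ) : ZMod n) → z ∉ C := by
    intro z hz hne hzC
    obtain ⟨i, hi⟩ := hCmem z hzC
    apply hne
    have h3 : (π ^ i) z = z := Equiv.Perm.pow_apply_eq_self_of_apply_eq_self hz i
    exact (π ^ i).injective (h3.trans hi.symm)
  have hclaim : ∀ a ∈ Finset.Icc (l - 4 * g + 1) (g - 1), ∃ k : ℕ, (k = 1 ∨ k = 3 ∨ k = 5) ∧
      ((k * g - a : ℕ) : ZMod n) ∉ C := by
    intro a ha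
    rw [Finset.mem_Icc] at ha
    by_contra hcon
    push Not at hcon
    have c1 := hcon 1 (Or.inl rfl)
    have c3 := hcon 3 (Or.inr (Or.inl rfl))
    have c5 := hcon 5 (Or.inr (Or.inr rfl))
    rw [one_mul] at c1
    exact cfive_same_claim π g hg hn E hE1 R1 Q1 Q2 l hl4 hl a ha.1 (by omega)
      (hCmem _ c1) (hCmem _ c3) (hCmem _ c5)
  have hclaim' : ∀ a : ℕ, ∃ k : ℕ, a ∈ Finset.Icc (l - 4 * g + 1) (g - 1) →
      (k = 1 ∨ k = 3 ∨ k = 5) ∧ ((k * g - a : ℕ) : ZMod n) ∉ C := by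
    intro a
    by_cases ha : a ∈ Finset.Icc (l - 4 * g + 1) (g - 1)
    · obtain ⟨k, hk⟩ := hclaim a ha
      exact ⟨k, fun _ => hk⟩
    · exact ⟨0, fun h => absurd h ha⟩
  choose k hk using hclaim'
  set D : Finset (ZMod n) := (Finset.Icc (l - 4 * g + 1) (g - 1)).image
    (fun a => ((k a * g - a : ℕ) : ZMod n)) with hD
  have hDcard : D.card = g - 1 + 1 - (l - 4 * g + 1) := by
    rw [hD, Finset.card_image_of_injOn, Nat.card_Icc]
    intro a ha b hb hab
    have ha' : a ∈ Finset.Icc (l - 4 * g + 1) (g - 1) := ha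
    have hb' : b ∈ Finset.Icc (l - 4 * g + 1) (g - 1) := hb
    have hka := (hk a ha').1
    have hkb := (hk b hb').1
    rw [Finset.mem_Icc] at ha' hb'
    have hab' : ((k a * g - a : ℕ) : ZMod n) = ((k b * g - b : ℕ) : ZMod n) := hab
    have hlt1 : k a * g - a < n := by
      rcases hka with h | h | h <;> rw [h] <;> omega
    have hlt2 : k b * g - b < n := by
      rcases hkb with h | h | h <;> rw [h] <;> omega
    have he := cfive_same_inj _ _ hlt1 hlt2 hab'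
    rcases hka with h | h | h <;> rcases hkb with h' | h' | h' <;> rw [h, h'] at he <;> omega
  set Z : Finset (ZMod n) := {0, ((2 * g : ℕ) : ZMod n), ((4 * g : ℕ) : ZMod n)} with hZ
  have hz0 : (0 : ZMod n) = ((0 : ℕ) : ZMod n) := by simp
  have hZcard : Z.card = 3 := by
    rw [hZ, Finset.card_eq_three]
    refine ⟨_, _, _, ?_, ?_, ?_, rfl⟩
    · intro h
      rw [hz0] at h
      have := cfive_same_inj _ _ (by omega) (by omega) h
      omega
    · intro h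
      rw [hz0] at h
      have := cfive_same_inj _ _ (by omega) (by omega) h
      omega
    · intro h
      have := cfive_same_inj _ _ (by omega) (by omega) h
      omega
  have hCZ : Disjoint C Z := by
    rw [Finset.disjoint_right]
    intro z hz
    rw [hZ, Finset.mem_insert, Finset.mem_insert, Finset.mem_singleton] at hz
    rcases hz with rfl | rfl | rfl
    · apply hfix _ h0
      intro h
      rw [hz0] at h
      have := cfive_same_inj _ _ (by omega) (by omega) h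
      omega
    · apply hfix _ h2
      intro h
      have := cfive_same_inj _ _ (by omega) (by omega) h
      omega
    · apply hfix _ h4
      intro h
      have := cfive_same_inj _ _ (by omega) (by omega) h
      omega
  have hCZD : Disjoint (C ∪ Z) D := by
    rw [Finset.disjoint_right]
    intro z hz hz'
    rw [hD, Finset.mem_image] at hz
    obtain ⟨a, ha, rfl⟩ := hz
    obtain ⟨hka, hkC⟩ := hk a ha
    rw [Finset.mem_Icc] at ha
    rw [Finset.mem_union] at hz'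
    rcases hz' with hz' | hz'
    · exact hkC hz'
    · rw [hZ, Finset.mem_insert, Finset.mem_insert, Finset.mem_singleton, hz0] at hz'
      have hlt1 : k a * g - a < n := by
        rcases hka with h | h | h <;> rw [h] <;> omega
      rcases hz' with hz' | hz' | hz'
      · have he := cfive_same_inj _ _ hlt1 (by omega) hz'
        rcases hka with h | h | h <;> rw [h] at he <;> omega
      · have he := cfive_same_inj _ _ hlt1 (by omega) hz'
        rcases hka with h | h | h <;> rw [h] at he <;> omega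
      · have he := cfive_same_inj _ _ hlt1 (by omega) hz'
        rcases hka with h | h | h <;> rw [h] at he <;> omega
  have hfinal : (C ∪ Z ∪ D).card ≤ n := by
    have := Finset.card_le_univ (C ∪ Z ∪ D)
    rwa [ZMod.card] at this
  rw [Finset.card_union_of_disjoint hCZD, Finset.card_union_of_disjoint hCZ, hCcard, hZcard,
    hDcard] at hfinal
  omega

end Pool.Agent.Helper597.Don85
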