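import Pool.Agent.Helper597.Don85.Defs
import Pool.Agent.Helper597.Don85.P_cfive_same
import Pool.Agent.Helper597.Don85.P_cfive_diff

set_option autoImplicit false

namespace Pool.Agent.Helper597.Don85



theorem cfive {n : ℕ} [NeZero n] (π : Equiv.Perm (ZMod n)) (g : ℕ) (hg : 1 ≤ g) (hn : n = g * 5)
    (h0 : π 0 = 0) (h2 : π ((2 * g : ℕ) : ZMod n) = ((2 * g : ℕ) : ZMod n))
    (h4 : π ((4 * g : ℕ) : ZMod n) = ((4 * g : ℕ) : ZMod n)) (E : Finset (ZMod n))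
    (hE1 : ((g : ℕ) : ZMod n) ∈ E) (hE3 : ((3 * g : ℕ) : ZMod n) ∈ E)
    (hE2 : ((2 * g : ℕ) : ZMod n) ∉ E) (hE4 : ((4 * g : ℕ) : ZMod n) ∉ E) :
    ∃ (m : ℕ) (y : ZMod n), 1 ≤ m ∧ y ≠ 0 ∧ (π ^ m) y ∈ E ∧
      (y + ((2 * g : ℕ) : ZMod n) = 0 ∨ (π ^ m) (y + ((2 * g : ℕ) : ZMod n)) ∉ E) ∧
      m + y.val ≤ n - 1 := by
  by_contra hcon
  push Not at hcon
  have hnpos : 0 < n := by omega
  have H : ∀ (m k : ℕ), 1 ≤ m → 1 ≤ k → m + k < 5 * g → (π ^ m) ((k : ℕ) : ZMod n) ∈ E →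
      ((k + 2 * g : ℕ) : ZMod n) ≠ 0 ∧ (π ^ m) ((k + 2 * g : ℕ) : ZMod n) ∈ E := by
    intro m k hm hk hmk hE
    have hkn : k < n := by omega
    have hval : ((k : ℕ) : ZMod n).val = k := by
      rw [ZMod.val_natCast, Nat.mod_eq_of_lt hkn]
    have hk0 : ((k : ℕ) : ZMod n) ≠ 0 := by
      intro h
      rw [h, ZMod.val_zero] at hval
      omega
    have hc := hcon m ((k : ℕ) : ZMod n) hm hk0 hE
    rw [hval] at hc
    have hcast : ((k : ℕ) : ZMod n) + ((2 * g : ℕ) : ZMod n) = ((k + 2 * g : ℕ) : ZMod n) := by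
      rw [Nat.cast_add]
    rw [hcast] at hc
    constructor
    · intro h
      have := hc (Or.inl h)
      omega
    · by_contra h
      have := hc (Or.inr h)
      omega
  have h5 : ((3 * g + 2 * g : ℕ) : ZMod n) = 0 := by
    have : 3 * g + 2 * g = n := by omega
    rw [this, ZMod.natCast_self]
  have R3 : ∀ m : ℕ, 1 ≤ m → m < 2 * g → (π ^ m) ((3 * g : ℕ) : ZMod n) ∉ E := by
    intro m hm hm2 hE
    exact (H m (3 * g) hm (by omega) (by omega) hE).1 h5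
  have R1 : ∀ m : ℕ, 1 ≤ m → m < 2 * g → (π ^ m) ((g : ℕ) : ZMod n) ∉ E := by
    intro m hm hm2 hE
    have h := (H m g hm hg (by omega) hE).2
    have h3 : g + 2 * g = 3 * g := by ring
    rw [h3] at h
    exact R3 m hm hm2 h
  have Q1 : ∀ a m : ℕ, 1 ≤ a → a < g → 1 ≤ m → m < 4 * g + a →
      (π ^ m) ((g - a : ℕ) : ZMod n) ∈ E → (π ^ m) ((3 * g - a : ℕ) : ZMod n) ∈ E := by
    intro a m ha hag hm hm2 hE
    have h := (H m (g - a) hm (by omega) (by omega) hE).2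
    have h3 : g - a + 2 * g = 3 * g - a := by omega
    rwa [h3] at h
  have Q2 : ∀ a m : ℕ, 1 ≤ a → a < g → 1 ≤ m → m < 2 * g + a →
      (π ^ m) ((3 * g - a : ℕ) : ZMod n) ∈ E → (π ^ m) ((5 * g - a : ℕ) : ZMod n) ∈ E := by
    intro a m ha hag hm hm2 hE
    have h := (H m (3 * g - a) hm (by omega) (by omega) hE).2
    have h3 : 3 * g - a + 2 * g = 5 * g - a := by omega
    rwa [h3] at h
  by_cases hs : ∃ s : ℕ, (π ^ s) ((g : ℕ) : ZMod n) = ((3 * g : ℕ) : ZMod n)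
  · obtain ⟨s, hs⟩ := hs
    exact cfive_same π g hg hn h0 h2 h4 E hE1 hE3 R1 R3 Q1 Q2 s hs
  · push Not at hs
    exact cfive_diff π g hg hn h0 h2 h4 E hE1 hE3 R1 R3 Q1 Q2 hs

end Pool.Agent.Helper597.Don85
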