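import Pool.Agent.Helper597.Don85.Defs
import Pool.Agent.Helper597.Don85.P_gtwo7
import Pool.Agent.Helper597.Don85.P_cfive

set_option autoImplicit false

namespace Pool.Agent.Helper597.Don85



theorem gtwo {n : ℕ} [NeZero n] {π : Equiv.Perm (ZMod n)} {d : ZMod n}
    {B : Finset (ZMod n) → ℕ → Prop} {g M : ℕ} (w : W π d B g M) (hM : 4 ≤ M)
    (hfix : π (d + d) = d + d) (h2 : d + d = -(g : ZMod n)) (E : Finset (ZMod n))
    (hE : ∀ j : ℕ, j + 2 < M → -(j • d) ∈ E) (hdE : d ∉ E) (hddE : d + d ∉ E) :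
    ∃ (m : ℕ) (y : ZMod n), 1 ≤ m ∧ y ≠ 0 ∧ (π ^ m) y ∈ E ∧
      (y + d = 0 ∨ (π ^ m) (y + d) ∉ E) ∧ m + y.val ≤ n - 1 := by
  have hgd : g ∣ d.val := (w.mem d).1 (AddSubgroup.mem_zmultiples d)
  obtain ⟨a, ha⟩ := hgd
  have hg3 : 3 ≤ g := w.hg
  have hgpos : 0 < g := by omega
  have hnM : n = g * M := w.hn
  have hd : d = ((g * a : ℕ) : ZMod n) := by
    rw [← ha]
    exact (ZMod.natCast_zmod_val d).symm
  have haM : a < M := by
    have h1 := ZMod.val_lt d
    rw [ha, hnM] at h1
    exact Nat.lt_of_mul_lt_mul_left h1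
  have hdvd : M ∣ 2 * a + 1 := by
    have h1 : ((g * (2 * a + 1) : ℕ) : ZMod n) = 0 := by
      have h3 : d + d + (g : ZMod n) = 0 := by rw [h2]; ring
      rw [hd] at h3
      push_cast at h3 ⊢
      linear_combination h3
    rw [ZMod.natCast_eq_zero_iff] at h1
    have h4 : g * M ∣ g * (2 * a + 1) := by
      rw [← hnM]
      exact h1
    exact (Nat.mul_dvd_mul_iff_left hgpos).1 h4
  rcases Nat.lt_or_ge M 6 with hM6 | hM6
  · have h45 : M = 4 ∨ M = 5 := by omega
    rcases h45 with hM4 | hM5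
    · exfalso
      rw [hM4] at hdvd
      omega
    · subst hM5
      have ha2 : a = 2 := by omega
      subst ha2
      have hz : (g : ZMod n) * 5 = 0 := by
        have : ((g * 5 : ℕ) : ZMod n) = 0 := by
          rw [← hnM]
          exact ZMod.natCast_self n
        push_cast at this
        exact this
      have hd2 : d = ((2 * g : ℕ) : ZMod n) := by
        rw [hd, mul_comm]
      have hd4 : d + d = ((4 * g : ℕ) : ZMod n) := by
        rw [hd]
        push_cast
        ring
      have e1 : -((1 : ℕ) • d) = ((3 * g : ℕ) : ZMod n) := by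
        rw [one_nsmul, hd]
        push_cast
        linear_combination -hz
      have e2 : -((2 : ℕ) • d) = ((g : ℕ) : ZMod n) := by
        rw [two_nsmul, hd]
        push_cast
        linear_combination -hz
      have E1 := hE 1 (by omega)
      have E2 := hE 2 (by omega)
      rw [e1] at E1
      rw [e2] at E2
      have hfx : π ((2 * g : ℕ) : ZMod n) = ((2 * g : ℕ) : ZMod n) := by
        rw [← hd2]; exact w.fix
      have hfx4 : π ((4 * g : ℕ) : ZMod n) = ((4 * g : ℕ) : ZMod n) := by
        rw [← hd4]; exact hfix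
      have hn2 : ((2 * g : ℕ) : ZMod n) ∉ E := by rw [← hd2]; exact hdE
      have hn4 : ((4 * g : ℕ) : ZMod n) ∉ E := by rw [← hd4]; exact hddE
      have := cfive π g (by omega) hnM w.zero hfx hfx4 E E2 E1 hn2 hn4
      rw [← hd2] at this
      exact this
  · exact gtwo7 w hM6 hfix h2 E hE hdE hddE

end Pool.Agent.Helper597.Don85
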