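import Pool.Agent.Helper597.Don85.Defs

set_option autoImplicit false

namespace Pool.Agent.Helper597.Don85


theorem small_M_aux {n : ℕ} [NeZero n] {π : Equiv.Perm (ZMod n)} {d : ZMod n}
    {B : Finset (ZMod n) → ℕ → Prop} {g M : ℕ} (w : W π d B g M) :
    ∃ a : ℕ, a < M ∧ d = ((g * a : ℕ) : ZMod n) ∧ ∃ z : ℤ, (M : ℤ) ∣ z * a - 1 := by
  have hg0 : 0 < g := lt_of_lt_of_le (by norm_num) w.hg
  have hM0 : 3 ≤ M := w.hM
  have hn : n = g * M := w.hn
  have hgn : g < n := by
    rw [hn]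
    nlinarith
  obtain ⟨a, ha⟩ := (w.mem d).1 (AddSubgroup.mem_zmultiples d)
  have hd : d = ((g * a : ℕ) : ZMod n) := by
    rw [← ha, ZMod.natCast_zmod_val]
  have haM : a < M := by
    have h1 := ZMod.val_lt d
    rw [ha, hn] at h1
    exact lt_of_mul_lt_mul_left h1 hg0.le
  have h2 : (g : ZMod n) ∈ AddSubgroup.zmultiples d := by
    rw [w.mem, ZMod.val_natCast, Nat.mod_eq_of_lt hgn]
  obtain ⟨z, hz⟩ := AddSubgroup.mem_zmultiples_iff.1 h2
  refine ⟨a, haM, hd, z, ?_⟩
  have h3 : ((z * (g * a) - g : ℤ) : ZMod n) = 0 := by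
    have h4 : z • ((g * a : ℕ) : ZMod n) = (g : ZMod n) := by rw [← hd]; exact hz
    rw [zsmul_eq_mul] at h4
    push_cast at h4 ⊢
    rw [h4, sub_self]
  rw [ZMod.intCast_zmod_eq_zero_iff_dvd, hn] at h3
  have h4 : ((g * M : ℕ) : ℤ) = g * M := by push_cast; rfl
  rw [h4] at h3
  have h5 : (z * (g * a) - g : ℤ) = g * (z * a - 1) := by ring
  rw [h5] at h3
  exact (mul_dvd_mul_iff_left (by exact_mod_cast hg0.ne')).1 h3

theorem small_M {n : ℕ} [NeZero n] {π : Equiv.Perm (ZMod n)} {d : ZMod n}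
    {B : Finset (ZMod n) → ℕ → Prop} {g M : ℕ} (w : W π d B g M) (hM : M ≤ 4) :
    d = (g : ZMod n) ∨ d = -(g : ZMod n) := by
  obtain ⟨a, haM, hd, z, hz⟩ := small_M_aux w
  have h3 := w.hM
  have h0 : ((g * M : ℕ) : ZMod n) = 0 := by
    rw [← w.hn]
    exact ZMod.natCast_self n
  have hM' : M = 3 ∨ M = 4 := by omega
  rcases hM' with rfl | rfl
  · have : a = 0 ∨ a = 1 ∨ a = 2 := by omega
    rcases this with rfl | rfl | rfl
    · exfalso
      push_cast at hz
      omega
    · left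
      rw [hd]
      push_cast
      ring
    · right
      rw [hd, eq_neg_iff_add_eq_zero, ← h0]
      push_cast
      ring
  · have : a = 0 ∨ a = 1 ∨ a = 2 ∨ a = 3 := by omega
    rcases this with rfl | rfl | rfl | rfl
    · exfalso
      push_cast at hz
      omega
    · left
      rw [hd]
      push_cast
      ring
    · exfalso
      push_cast at hz
      omega
    · right
      rw [hd, eq_neg_iff_add_eq_zero, ← h0]
      push_cast
      ring

end Pool.Agent.Helper597.Don85
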