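import Pool.Agent.Helper597.Don85.Defs
import Pool.Agent.Helper597.Don85.P_red_step
import Pool.Agent.Helper597.Don85.P_claimA
import Pool.Agent.Helper597.Don85.P_red_in_K
import Pool.Agent.Helper597.Don85.P_arc_count
import Pool.Agent.Helper597.Don85.P_only_m1
import Pool.Agent.Helper597.Don85.P_small_M
import Pool.Agent.Helper597.Don85.P_gprime
import Pool.Agent.Helper597.Don85.P_two_steps

set_option autoImplicit false

namespace Pool.Agent.Helper597.Don85



theorem sh_card_h89 {n : ℕ} [NeZero n] (T : Finset (ZMod n)) (y : ZMod n) :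
    (sh T y).card = T.card := by
  refine Finset.card_bij (fun x _ => x + y) ?_ ?_ ?_
  · intro a ha
    simpa [sh] using ha
  · intro a _ b _ hab
    exact add_right_cancel hab
  · intro b hb
    refine ⟨b - y, ?_, ?_⟩
    · simpa [sh] using hb
    · simp

theorem M_smul_h89 {n : ℕ} [NeZero n] {π : Equiv.Perm (ZMod n)} {d : ZMod n}
    {B : Finset (ZMod n) → ℕ → Prop} {g M : ℕ} (w : W π d B g M) : M • d = 0 := by
  have h1 : g ∣ d.val := (w.mem d).1 (AddSubgroup.mem_zmultiples d)
  obtain ⟨t, ht⟩ := h1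
  have h2 : d = ((g * t : ℕ) : ZMod n) := by
    rw [← ht, ZMod.natCast_zmod_val]
  have h3 : M • d = ((M * (g * t) : ℕ) : ZMod n) := by
    rw [nsmul_eq_mul]
    conv_lhs => rw [h2]
    push_cast
    ring
  rw [h3, show M * (g * t) = n * t by rw [w.hn]; ring]
  push_cast
  simp

theorem caseB {n : ℕ} [NeZero n] {π : Equiv.Perm (ZMod n)} {d : ZMod n}
    {B : Finset (ZMod n) → ℕ → Prop} {g M : ℕ} (w : W π d B g M) (hdg : d ≠ (g : ZMod n))
    (k N : ℕ) (hk : M ∣ k) (hk2 : M ≤ k) (hN : (M + 1) * n ≤ N)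
    (IH : ∀ (s : ℕ) (V : Finset (ZMod n)), 1 ≤ s → s ≤ M → V.card + s = k → B V (N - s * n))
    (T : Finset (ZMod n)) (hT : T.card = k) (x y : ZMod n) (hx : x ∈ T)
    (hxK : x ∈ AddSubgroup.zmultiples d) (hy : y ∉ T) (hyK : y ∈ AddSubgroup.zmultiples d) :
    B T (N - g) := by
  by_contra hbad
  have hM := w.hM
  have hg := w.hg
  have hn := w.hn
  have hgn : 3 * g ≤ n := by rw [hn]; nlinarith
  have hn9 : 9 ≤ n := by nlinarith
  have hN4 : 4 * n ≤ N := le_trans (by nlinarith) hN
  obtain ⟨h, hhT, hhK, hhd, hhv⟩ := red_in_K w T x y hx hxK hy hyK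
  obtain ⟨hc1, hs1⟩ := red_step π d B w.cost w.zero T h hhT hhd
  set T1 := re π (sh T h) with hT1
  have hT1B : B T1 (N - 1 * n) := IH 1 T1 le_rfl (by omega) (by omega)
  have hv : h.val = n - g := by
    by_contra hne
    apply hbad
    refine w.cost.mono T _ _ (hs1 _ hT1B) ?_
    omega
  have hnot : ¬ B T1 (N - n - 1) := by
    intro hb
    apply hbad
    refine w.cost.mono T _ _ (hs1 _ hb) ?_
    omega
  have honly := only_m1 w T1 (N - 2 * n)
    (fun V hV => IH 2 V (by omega) (by omega) (by omega))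
    (fun hb => hnot (w.cost.mono T1 _ _ hb (by omega)))
  set E1 := sh T1 (-1) with hE1
  have memE : ∀ z, z ∈ E1 ↔ z + (-1) ∈ T1 := by
    intro z
    simp [hE1, sh]
  have hE : ∀ x ∈ E1, x ≠ 0 → x + d ∈ E1 := by
    intro x hx hx0
    by_contra hcon
    rw [memE] at hx hcon
    have := honly (x + (-1)) hx (by
      intro h'
      apply hcon
      rwa [show x + d + -1 = x + -1 + d by ring])
    apply hx0
    have h2 : x + (-1) + 1 = -1 + 1 := by rw [this]
    simpa using h2
  have hcE : E1.card = T1.card := sh_card_h89 T1 (-1)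
  have harc : ∀ j : ℕ, j < M → (-(j • d) ∈ E1 ↔ j + 1 < M) := by
    intro j hj
    refine arc_count w E1 1 le_rfl (by omega) hE ?_ j hj
    rw [hcE, hc1, hT]
    exact hk
  have h0E : (0 : ZMod n) ∈ E1 := by
    have := (harc 0 (by omega)).2 (by omega)
    simpa using this
  have hMd := M_smul_h89 w
  have hdE : d ∉ E1 := by
    have h1 := (harc (M - 1) (by omega))
    have h2 : -((M - 1) • d) = d := by
      have h3 : M • d = (M - 1) • d + d := by
        conv_lhs => rw [show M = (M - 1) + 1 by omega]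
        rw [succ_nsmul]
      rw [hMd] at h3
      exact neg_eq_of_add_eq_zero_right h3.symm
    rw [h2] at h1
    intro hd'
    have := h1.1 hd'
    omega
  have hex : ∃ (m : ℕ) (y : ZMod n), 1 ≤ m ∧ y ≠ 0 ∧ (π ^ m) y ∈ E1 ∧
      (y + d = 0 ∨ (π ^ m) (y + d) ∉ E1) ∧ m + y.val ≤ n - 1 := by
    by_cases hdm : d = -(g : ZMod n)
    · have hgE : (g : ZMod n) ∈ E1 := by
        have := (harc 1 (by omega)).2 (by omega)
        rwa [one_nsmul, hdm, neg_neg] at this
      have hdE' : -(g : ZMod n) ∉ E1 := by rwa [← hdm]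
      have hfix : π (-(g : ZMod n)) = -(g : ZMod n) := by
        have := w.fix
        rwa [hdm] at this
      obtain ⟨m, y, h1, h2, h3, h4, h5⟩ := claimA π g (by omega) hgn w.zero hfix E1 hgE hdE'
      refine ⟨m, y, h1, h2, h3, ?_, h5⟩
      rw [hdm, ← sub_eq_add_neg]
      exact h4
    · have hM5 : 5 ≤ M := by
        by_contra hlt
        rcases small_M w (by omega) with h1 | h1
        · exact hdg h1
        · exact hdm h1
      exact gprime w hM5 hdg hdm E1 (fun j hj => (harc j (by omega)).2 hj) hdE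
  obtain ⟨m, y', h1, h2, h3, h4, h5⟩ := hex
  obtain ⟨V, hVc, hVB⟩ := two_steps w E1 h0E hdE 0 m y' h1 h2 h3 h4 h5
  have hB3 : B V (N - 3 * n) := IH 3 V (by omega) (by omega) (by omega)
  have hBE := hVB _ hB3
  have hBT := w.cost.rot T1 (-1) _ hBE
  have hval : (-1 : ZMod n).val = n - 1 := by
    obtain ⟨p, rfl⟩ : ∃ p, n = p + 1 := ⟨n - 1, by omega⟩
    rw [ZMod.val_neg_one]
    rfl
  rw [hval] at hBT
  exact hnot (w.cost.mono T1 _ _ hBT (by omega))

end Pool.Agent.Helper597.Don85
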