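import Pool.Agent.Helper597.Don85.Defs
import Pool.Agent.Helper597.Don85.P_red_step
import Pool.Agent.Helper597.Don85.P_red_in_K

set_option autoImplicit false

namespace Pool.Agent.Helper597.Don85



theorem caseG {n : ℕ} [NeZero n] {π : Equiv.Perm (ZMod n)} {d : ZMod n}
    {B : Finset (ZMod n) → ℕ → Prop} {g M : ℕ} (w : W π d B g M) (hdg : d = (g : ZMod n))
    (k N : ℕ) (hN : (M + 1) * n ≤ N)
    (IH : ∀ (s : ℕ) (V : Finset (ZMod n)), 1 ≤ s → s ≤ M → V.card + s = k → B V (N - s * n))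
    (T : Finset (ZMod n)) (hT : T.card = k) (h0 : (0 : ZMod n) ∈ T)
    (y : ZMod n) (hy : y ∉ T) (hyK : y ∈ AddSubgroup.zmultiples d) :
    B T (N - (g + 1)) := by
  obtain ⟨h, hT', hK, hd, hle⟩ := red_in_K w T 0 y h0 (zero_mem _) hy hyK
  obtain ⟨a, ha⟩ := (w.mem h).mp hK
  have hne : h.val + g ≠ n := by
    intro he
    apply hd
    have h1 : h + d = 0 := by
      have h2 : ((h.val + g : ℕ) : ZMod n) = h + d := by
        rw [Nat.cast_add, ZMod.natCast_zmod_val, hdg]
      rw [← h2, he, ZMod.natCast_self]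
    rw [h1]
    exact h0
  have hlt : g * (a + 1) < g * M := by
    have h3 : g * (a + 1) = h.val + g := by rw [ha]; ring
    have h4 := w.hn
    rw [h3, ← h4]
    exact lt_of_le_of_ne hle hne
  have hlt2 : a + 1 < M := Nat.lt_of_mul_lt_mul_left hlt
  have h5 : h.val + 2 * g ≤ n := by
    calc h.val + 2 * g = g * (a + 2) := by rw [ha]; ring
      _ ≤ g * M := Nat.mul_le_mul_left g (by omega)
      _ = n := w.hn.symm
  obtain ⟨hcard, hred⟩ := red_step π d B w.cost w.zero T h hT' hd
  have h6 := IH 1 (re π (sh T h)) le_rfl (by have := w.hM; omega) (by rw [hcard, hT])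
  have h7 := hred _ h6
  refine w.cost.mono T _ _ h7 ?_
  have hnN : n ≤ N := by
    have : n ≤ (M + 1) * n := Nat.le_mul_of_pos_left n (by omega)
    omega
  have hg := w.hg
  omega

end Pool.Agent.Helper597.Don85

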