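import Pool.Agent.Helper597.Don85.Defs
import Pool.Agent.Helper597.Don85.P_red_step
import Pool.Agent.Helper597.Don85.P_red_in_K

set_option autoImplicit false

namespace Pool.Agent.Helper597.Don85



theorem caseStar {n : ℕ} [NeZero n] {π : Equiv.Perm (ZMod n)} {d : ZMod n}
    {B : Finset (ZMod n) → ℕ → Prop} {g M : ℕ} (w : W π d B g M)
    (k N : ℕ) (hN : (M + 1) * n ≤ N)
    (IH : ∀ (s : ℕ) (V : Finset (ZMod n)), 1 ≤ s → s ≤ M → V.card + s = k → B V (N - s * n))
    (T : Finset (ZMod n)) (hT : T.card = k) (x y : ZMod n) (hx : x ∈ T)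
    (hxK : x ∈ AddSubgroup.zmultiples d) (hy : y ∉ T) (hyK : y ∈ AddSubgroup.zmultiples d) :
    B T (N - (g + 1) + 2) := by
  obtain ⟨h, hhT, hhK, hhd, hle⟩ := red_in_K w T x y hx hxK hy hyK
  obtain ⟨hcard, hstep⟩ := red_step π d B w.cost w.zero T h hhT hhd
  have hM := w.hM
  have hg := w.hg
  have h1 := IH 1 (re π (sh T h)) le_rfl (by omega) (by rw [hcard, hT])
  have h2 := hstep _ h1
  refine w.cost.mono _ _ _ h2 ?_
  have h3 : n ≤ N := by
    calc n = 1 * n := (one_mul n).symm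
      _ ≤ (M + 1) * n := Nat.mul_le_mul_right _ (by omega)
      _ ≤ N := hN
  have h4 : g * 3 ≤ n := by
    rw [w.hn]
    exact Nat.mul_le_mul_left _ hM
  omega

end Pool.Agent.Helper597.Don85
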