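import Pool.Agent.Helper597.Don85.Defs

set_option autoImplicit false

namespace Pool.Agent.Helper597.Don85



theorem keep_cost {n : ℕ} [NeZero n] (π : Equiv.Perm (ZMod n)) (d : ZMod n)
    (B : Finset (ZMod n) → ℕ → Prop) (hB : Cost π d B) (hπ : π 0 = 0) (hn : 1 < n)
    (X : Finset (ZMod n)) (c : ℕ) (hcn : c < n) (hc : (c : ZMod n) ∈ X) :
    (ke π (sh X (c : ZMod n))).card = X.card ∧
    (0 : ZMod n) ∈ ke π (sh X (c : ZMod n)) ∧
    (∀ κ, κ ∈ ke π (sh X (c : ZMod n)) ↔ (c : ZMod n) + π κ ∈ X) ∧
    (∀ e, B (ke π (sh X (c : ZMod n))) e → B X (e + 1 + c)) := by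
  have h0sh : (0 : ZMod n) ∈ sh X (c : ZMod n) := by
    simp only [sh, Finset.mem_filter, Finset.mem_univ, true_and, zero_add]
    exact hc
  refine ⟨?_, ?_, ?_, ?_⟩
  · have h1 : (ke π (sh X (c : ZMod n))).card = (sh X (c : ZMod n)).card := by
      refine Finset.card_bij (fun x _ => π x) ?_ ?_ ?_
      · intro x hx
        simpa [ke] using hx
      · intro x _ y _ h
        exact π.injective h
      · intro y hy
        exact ⟨π.symm y, by simpa [ke] using hy, by simp⟩
    have h2 : (sh X (c : ZMod n)).card = X.card := by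
      refine Finset.card_bij (fun x _ => x + (c : ZMod n)) ?_ ?_ ?_
      · intro x hx
        simpa [sh] using hx
      · intro x _ y _ h
        exact add_right_cancel h
      · intro y hy
        exact ⟨y - c, by simpa [sh] using hy, by simp⟩
    rw [h1, h2]
  · simp only [ke, Finset.mem_filter, Finset.mem_univ, true_and, hπ]
    exact h0sh
  · intro κ
    simp only [ke, sh, Finset.mem_filter, Finset.mem_univ, true_and]
    rw [add_comm]
  · intro e he
    have h1 := hB.keep (sh X (c : ZMod n)) e h0sh he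
    have h2 := hB.rot X (c : ZMod n) (e + 1) h1
    rwa [ZMod.val_natCast, Nat.mod_eq_of_lt hcn] at h2

end Pool.Agent.Helper597.Don85
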