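import Pool.Agent.Helper597.Don85.Defs
import Pool.Agent.Helper597.Don85.P_k0_gen
import Pool.Agent.Helper597.Don85.P_first_valid
import Pool.Agent.Helper597.Don85.P_keep_cost

set_option autoImplicit false

namespace Pool.Agent.Helper597.Don85



theorem level_stage0 {n : ℕ} [NeZero n] (π : Equiv.Perm (ZMod n)) (d : ZMod n)
    (B : Finset (ZMod n) → ℕ → Prop) (hB : Cost π d B) (hπ : π 0 = 0)
    (K : AddSubgroup (ZMod n)) (g : ℕ) (hg2 : 2 ≤ g) (hgn : g ∣ n)
    (hgK : ∀ x : ZMod n, x ∈ K ↔ g ∣ x.val) (hlt : g < n) (k C : ℕ)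
    (T : Finset (ZMod n)) (hTk : T.card = k) (hT : Per K T)
    (hT' : ¬ Per (AddSubgroup.closure ((K : Set (ZMod n)) ∪ π '' (K : Set (ZMod n)))) T)
    (hbad : ¬ B T (C + g)) :
    (∃ T : Finset (ZMod n), T.card = k ∧ (0 : ZMod n) ∈ T ∧ (∀ κ ∈ K, κ ∈ T ↔ π κ ∈ K) ∧
      ¬ B T C) ∨
    (∃ T : Finset (ZMod n), T.card = k ∧ (0 : ZMod n) ∈ T ∧ (∃ x ∈ K, x ∉ T) ∧
      ¬ B T (C + 1)) := by
  have hn1 : 1 < n := by omega
  obtain ⟨c0, hc0g, hc0T, hc0⟩ := first_valid π d B hB hπ K g (by omega) hgn hgK T hT hT'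
  by_cases hA : ∃ c : ℕ, c + 2 ≤ g ∧ (c : ZMod n) ∈ T ∧ ∃ κ ∈ K, (c : ZMod n) + π κ ∉ T
  · right
    obtain ⟨c, hcg, hcT, κ, hκ, hκT⟩ := hA
    obtain ⟨hcard, h0, hmem, hcost⟩ := keep_cost π d B hB hπ hn1 T c (by omega) hcT
    exact ⟨ke π (sh T (c : ZMod n)), hcard.trans hTk, h0, ⟨κ, hκ, fun h => hκT ((hmem κ).1 h)⟩,
      fun hBV => hbad (hB.mono _ _ _ (hcost (C + 1) hBV) (by omega))⟩
  · left
    push Not at hA
    have hc0e : c0 = g - 1 := by
      by_contra hne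
      obtain ⟨κ, hκ, hκT⟩ := hc0
      exact hκT (hA c0 (by omega) hc0T κ hκ)
    rw [hc0e] at hc0T hc0
    obtain ⟨hcard, h0, hmem, hcost⟩ := keep_cost π d B hB hπ hn1 T (g - 1) (by omega) hc0T
    refine ⟨ke π (sh T ((g - 1 : ℕ) : ZMod n)), hcard.trans hTk, h0, fun κ hκ => ?_,
      fun hBV => hbad (hB.mono _ _ _ (hcost C hBV) (by omega))⟩
    rw [hmem]
    constructor
    · intro hκT
      refine k0_gen π K ⊤ le_top (fun _ _ => AddSubgroup.mem_top _) T
        (fun x hx _ => hT x hx) ((g - 1 : ℕ) : ZMod n) (AddSubgroup.mem_top _) ?_ hc0T hc0 κ hκ hκT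
      rintro c' hc' - ⟨κ', hκ', hκT'⟩
      have hr : c'.val % g < g := Nat.mod_lt _ (by omega)
      have hval := ZMod.val_lt c'
      have hdiff : c' - ((c'.val % g : ℕ) : ZMod n) ∈ K := by
        have e1 : c' - ((c'.val % g : ℕ) : ZMod n) = ((c'.val - c'.val % g : ℕ) : ZMod n) := by
          rw [Nat.cast_sub (Nat.mod_le _ _), ZMod.natCast_zmod_val]
        rw [e1, hgK, ZMod.val_natCast, Nat.mod_eq_of_lt (by omega)]
        exact Nat.dvd_sub_mod _
      have hT1 : ((c'.val % g : ℕ) : ZMod n) ∈ T := by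
        have h1 := hT c' hc' _ (K.neg_mem hdiff)
        have e2 : c' + -(c' - ((c'.val % g : ℕ) : ZMod n)) = ((c'.val % g : ℕ) : ZMod n) := by ring
        rw [e2] at h1
        exact h1
      have hT2 : ((c'.val % g : ℕ) : ZMod n) + π κ' ∉ T := by
        intro h
        have h1 := hT _ h _ hdiff
        have e2 : ((c'.val % g : ℕ) : ZMod n) + π κ' + (c' - ((c'.val % g : ℕ) : ZMod n)) =
            c' + π κ' := by ring
        rw [e2] at h1
        exact hκT' h1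
      have hrg : c'.val % g = g - 1 := by
        by_contra hne
        exact hT2 (hA (c'.val % g) (by omega) hT1 κ' hκ')
      rw [hrg] at hdiff
      exact hdiff
    · intro h
      exact hT _ hc0T _ h

end Pool.Agent.Helper597.Don85
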