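import Pool.Agent.Helper597.Don85.Defs
import Pool.Agent.Helper597.Don85.P_stage_step
import Pool.Agent.Helper597.Don85.P_last_stage
import Pool.Agent.Helper597.Don85.P_keep_cost

set_option autoImplicit false

namespace Pool.Agent.Helper597.Don85



theorem ss_card {n : ℕ} [NeZero n] (T : Finset (ZMod n)) (y : ZMod n) :
    (sh T y).card = T.card := by
  refine Finset.card_bij (fun x _ => x + y) ?_ ?_ ?_
  · intro a ha
    exact (Finset.mem_filter.1 ha).2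
  · intro a _ b _ h
    exact add_right_cancel h
  · intro b hb
    refine ⟨b - y, ?_, sub_add_cancel b y⟩
    unfold sh
    rw [Finset.mem_filter]
    exact ⟨Finset.mem_univ _, by rw [sub_add_cancel]; exact hb⟩

theorem ss_mem {n : ℕ} [NeZero n] (T : Finset (ZMod n)) (y x : ZMod n) :
    x ∈ sh T y ↔ x + y ∈ T := by
  unfold sh
  rw [Finset.mem_filter]
  exact ⟨fun h => h.2, fun h => ⟨Finset.mem_univ _, h⟩⟩

theorem ss_gap {a b c : ℕ} (h : a < b) (ha : c ∣ a) (hb : c ∣ b) : a + c ≤ b := by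
  obtain ⟨u, rfl⟩ := ha
  obtain ⟨v, rfl⟩ := hb
  have huv : u < v := lt_of_mul_lt_mul_left h (Nat.zero_le c)
  calc c * u + c = c * (u + 1) := by ring
    _ ≤ c * v := Nat.mul_le_mul_left _ huv

theorem ss_anti {p : ℕ → ℕ} (hp1 : ∀ i, 1 ≤ p i) (hpd : ∀ i, p (i + 1) ∣ p i) (i : ℕ) :
    p i ≤ p 0 := by
  induction i with
  | zero => exact le_rfl
  | succ i ih => exact (Nat.le_of_dvd (hp1 i) (hpd i)).trans ih

theorem stage_S' {n : ℕ} [NeZero n] (π : Equiv.Perm (ZMod n)) (d : ZMod n)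
    (B : Finset (ZMod n) → ℕ → Prop) (hB : Cost π d B) (hπ : π 0 = 0)
    (K : AddSubgroup (ZMod n)) (p : ℕ → ℕ) (hp1 : ∀ i, 1 ≤ p i) (hpn : ∀ i, p i ∣ n)
    (hp : ∀ i, ∀ x : ZMod n, x ∈ ch π K i ↔ p i ∣ x.val) (hpd : ∀ i, p (i + 1) ∣ p i)
    (hlt : p 0 < n) (k C : ℕ)
    (hstar : ∀ V : Finset (ZMod n), V.card = k → (∃ x ∈ K, x ∈ V) → (∃ x ∈ K, x ∉ V) →
      B V (C + 2))
    (j : ℕ) (hj : 1 ≤ j) (hpj : ∀ i ≤ j, 2 ≤ p i) (X : Finset (ZMod n)) (hXk : X.card = k)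
    (hX : ∃ x ∈ X, x ∈ ch π K j) (hX2 : ∃ x ∈ ch π K j, x ∉ X)
    (hbad : ¬ B X (C + (p 0 - p j + j) + 1)) :
    ∃ T : Finset (ZMod n), T.card = k ∧ (0 : ZMod n) ∈ T ∧ (∀ κ ∈ K, κ ∈ T ↔ π κ ∈ K) ∧
      ¬ B T C := by
  have hval : ∀ y : ℕ, y < n → ((y : ZMod n)).val = y := fun y hy => ZMod.val_cast_of_lt hy
  have h1n : 1 < n := by
    have := hp1 0
    omega
  induction j, hj using Nat.le_induction generalizing X with
  | base =>
    have hle1 : p 1 ≤ p 0 := ss_anti hp1 hpd 1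
    rcases stage_step π (ch π K 0) (ch π K 1) rfl (p 0) (p 1) (hp1 0) (hpn 0) (hp 0) (hpn 1) (hp 1)
      (hpd 0) X hX hX2 with ⟨y, hy, hpy, ⟨x1, hx1, hx1X⟩, ⟨x2, hx2, hx2X⟩⟩ |
      ⟨h1, c, hc, hpc, hcX, hcκ⟩
    · exfalso
      apply hbad
      have h2 : B (sh X (y : ZMod n)) (C + 2) := by
        refine hstar _ (by rw [ss_card, hXk]) ⟨x1, hx1, (ss_mem _ _ _).2 hx1X⟩ ⟨x2, hx2, ?_⟩
        rw [ss_mem]
        exact hx2X
      have h3 := hB.rot X (y : ZMod n) (C + 2) h2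
      rw [hval y (by omega)] at h3
      have h4 := ss_gap hy hpy (hpd 0)
      exact hB.mono _ _ _ h3 (by omega)
    · exact last_stage π d B hB hπ K (ch π K 1) rfl (p 0) (p 1) (hp1 0) (hpn 0) (hp 0) (hpn 1)
        (hp 1) (hpd 0) (hpj 1 le_rfl) hlt k C hstar X hXk h1 c hc hpc hcX hcκ
        (fun h => hbad (hB.mono _ _ _ h (by omega)))
  | succ j hj ih =>
    have hlej : p j ≤ p 0 := ss_anti hp1 hpd j
    have hlej1 : p (j + 1) ≤ p j := Nat.le_of_dvd (hp1 j) (hpd j)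
    have hpj' : ∀ i ≤ j, 2 ≤ p i := fun i hi => hpj i (by omega)
    rcases stage_step π (ch π K j) (ch π K (j + 1)) rfl (p j) (p (j + 1)) (hp1 j) (hpn j) (hp j)
      (hpn (j + 1)) (hp (j + 1)) (hpd j) X hX hX2 with
      ⟨y, hy, hpy, ⟨x1, hx1, hx1X⟩, ⟨x2, hx2, hx2X⟩⟩ | ⟨h1, c, hc, hpc, hcX, κ, hκ, hcκ⟩
    · refine ih hpj' (sh X (y : ZMod n)) (by rw [ss_card, hXk])
        ⟨x1, (ss_mem _ _ _).2 hx1X, hx1⟩ ⟨x2, hx2, ?_⟩ ?_
      · rw [ss_mem]
        exact hx2X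
      · intro h2
        apply hbad
        have h3 := hB.rot X (y : ZMod n) _ h2
        rw [hval y (by omega)] at h3
        have h4 := ss_gap hy hpy (hpd j)
        exact hB.mono _ _ _ h3 (by omega)
    · obtain ⟨k1, k2, k3, k4⟩ := keep_cost π d B hB hπ h1n X c (by omega) hcX
      refine ih hpj' (ke π (sh X (c : ZMod n))) (by rw [k1, hXk])
        ⟨0, k2, (ch π K j).zero_mem⟩ ⟨κ, hκ, ?_⟩ ?_
      · rw [k3]
        exact hcκ
      · intro h2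
        apply hbad
        have h3 := k4 _ h2
        have h4 := ss_gap hc hpc (hpd j)
        exact hB.mono _ _ _ h3 (by omega)

end Pool.Agent.Helper597.Don85
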