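import Pool.Agent.Helper597.Don85.Defs

set_option autoImplicit false

namespace Pool.Agent.Helper597.Don85



theorem index_facts {n : ℕ} [NeZero n] (K : AddSubgroup (ZMod n)) :
    ∃ g : ℕ, 1 ≤ g ∧ n = g * Nat.card K ∧ ∀ x : ZMod n, x ∈ K ↔ g ∣ x.val := by
  have hn : n = K.index * Nat.card K := by
    have h := K.card_mul_index
    rw [Nat.card_zmod] at h
    rw [mul_comm]; exact h.symm
  have hn0 : n ≠ 0 := NeZero.ne n
  have hg0 : 1 ≤ K.index := by
    rcases Nat.eq_zero_or_pos K.index with h | h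
    · rw [h, zero_mul] at hn; exact absurd hn hn0
    · exact h
  have hc0 : 0 < Nat.card K := by
    rcases Nat.eq_zero_or_pos (Nat.card K) with h | h
    · rw [h, mul_zero] at hn; exact absurd hn hn0
    · exact h
  refine ⟨K.index, hg0, hn, fun x => ⟨fun hx => ?_, fun hx => ?_⟩⟩
  · have h1 : Nat.card K • (⟨x, hx⟩ : K) = 0 := card_nsmul_eq_zero'
    have h2 : Nat.card K • x = 0 := congrArg Subtype.val h1
    have h3 : ((Nat.card K * x.val : ℕ) : ZMod n) = 0 := by
      rw [Nat.cast_mul, ZMod.natCast_zmod_val, ← nsmul_eq_mul]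
      exact h2
    rw [ZMod.natCast_eq_zero_iff] at h3
    have h4 : Nat.card K * K.index ∣ Nat.card K * x.val := by
      rw [mul_comm (Nat.card K) K.index, ← hn]
      exact h3
    exact Nat.dvd_of_mul_dvd_mul_left hc0 h4
  · obtain ⟨k, hk⟩ := hx
    have h1 : x = k • (K.index • (1 : ZMod n)) := by
      rw [← mul_nsmul, nsmul_eq_mul, mul_one, ← hk, ZMod.natCast_zmod_val]
    rw [h1]
    exact K.nsmul_mem (K.nsmul_index_mem 1) k

end Pool.Agent.Helper597.Don85
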