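import Pool.Agent.Helper597.Don85.Defs

set_option autoImplicit false

namespace Pool.Agent.Helper597.Don85



theorem exists_valid {n : ℕ} [NeZero n] (π : Equiv.Perm (ZMod n)) (K : AddSubgroup (ZMod n))
    (hgen : AddSubgroup.closure ((K : Set (ZMod n)) ∪ π '' (K : Set (ZMod n))) = ⊤)
    (T : Finset (ZMod n)) (hT : Per K T) (hne : T.Nonempty) (hu : T ≠ Finset.univ) :
    ∃ c ∈ T, ∃ κ ∈ K, c + π κ ∉ T := by
  classical
  by_contra h
  push Not at h
  have key : ∀ k ∈ AddSubgroup.closure ((K : Set (ZMod n)) ∪ π '' (K : Set (ZMod n))),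
      ∀ c ∈ T, c + k ∈ T := by
    intro k hk
    induction hk using AddSubgroup.closure_induction with
    | mem x hx =>
      intro c hc
      rcases hx with hx | ⟨κ, hκ, rfl⟩
      · exact hT c hc x hx
      · exact h c hc κ hκ
    | zero =>
      intro c hc
      rwa [add_zero]
    | add x y _ _ hx hy =>
      intro c hc
      rw [← add_assoc]
      exact hy _ (hx c hc)
    | neg x _ hx =>
      intro c hc
      have h1 : T.image (fun a => a + x) ⊆ T := by
        intro a ha
        obtain ⟨b, hb, rfl⟩ := Finset.mem_image.1 ha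
        exact hx b hb
      have h2 : (T.image (fun a => a + x)).card = T.card :=
        Finset.card_image_of_injective _ (add_left_injective x)
      have h3 : T.image (fun a => a + x) = T := Finset.eq_of_subset_of_card_le h1 h2.ge
      rw [← h3] at hc
      obtain ⟨b, hb, hbc⟩ := Finset.mem_image.1 hc
      have h4 : c + -x = b := by
        rw [← hbc]
        abel
      rw [h4]
      exact hb
  obtain ⟨c0, hc0⟩ := hne
  apply hu
  ext x
  simp only [Finset.mem_univ, iff_true]
  have h1 := key (x - c0) (by rw [hgen]; exact AddSubgroup.mem_top _) c0 hc0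
  rwa [add_sub_cancel] at h1

end Pool.Agent.Helper597.Don85
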