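import Pool.Agent.Helper597.Don85.Defs
import Pool.Agent.Helper597.Don85.P_step_row
import Pool.Agent.Helper597.Don85.P_red_step
import Pool.Agent.Helper597.Don85.P_card_per

set_option autoImplicit false

namespace Pool.Agent.Helper597.Don85



theorem near_per {n : ℕ} [NeZero n] (π : Equiv.Perm (ZMod n)) (d : ZMod n)
    (B : Finset (ZMod n) → ℕ → Prop) (hB : Cost π d B) (hπ : π 0 = 0) (hd : d ≠ 0) (hn : 4 ≤ n)
    (hM : 2 ≤ Nat.card (orb π d)) (U : Finset (ZMod n))
    (IH : ∀ V : Finset (ZMod n), V.card < U.card → B V (n * V.card))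
    (hcard : Nat.card (orb π d) ∣ U.card + 1) (hU : ¬ B U (n * U.card - 1)) :
    -1 + d ∉ U ∧ ∀ x, (x ∈ U ∨ x = -1 + d) → ∀ κ ∈ orb π d, (x + κ ∈ U ∨ x + κ = -1 + d) := by
  classical
  obtain ⟨K, hK⟩ : ∃ K, K = orb π d := ⟨_, rfl⟩
  rw [← hK] at hM hcard ⊢
  -- (a)
  have ha : ∀ y ∈ U, y + d ∉ U → y = -1 := by
    intro y hy hyd
    obtain ⟨h1, h2⟩ := red_step π d B hB hπ U y hy hyd
    have h3 := h2 _ (IH (re π (sh U y)) (by omega))
    have h4 : ¬ (n * (re π (sh U y)).card + (y.val + 1) ≤ n * U.card - 1) := fun h5 =>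
      hU (hB.mono _ _ _ h3 h5)
    have h5 : n * U.card = n * (re π (sh U y)).card + n := by rw [← h1]; ring
    have h6 := ZMod.val_lt y
    have h7 : y.val + 1 = n := by omega
    have h8 : y + 1 = 0 := by
      have h9 : ((y.val + 1 : ℕ) : ZMod n) = y + 1 := by
        rw [Nat.cast_add, ZMod.natCast_zmod_val, Nat.cast_one]
      rw [← h9, h7, ZMod.natCast_self]
    exact eq_neg_of_add_eq_zero_left h8
  -- (b)
  have hb : ∀ x ∈ U, ∀ κ ∈ K, x + κ ∉ U → x + 1 ∈ K := by
    intro x hx κ hκ hxκ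
    rcases step_row π d B hB hπ hd U x κ hx (hK ▸ hκ) hxκ with ⟨y, hy, hyx, hyd⟩ | ⟨U', hU', h2⟩
    · have hy1 := ha y hy hyd
      rw [← hK, hy1] at hyx
      have h3 := K.neg_mem hyx
      have h4 : -(-1 - x) = x + 1 := by ring
      rwa [h4] at h3
    · exfalso
      have h3 := h2 _ (IH U' (by omega))
      apply hU
      refine hB.mono _ _ _ h3 ?_
      have h5 : n * U.card = n * U'.card + n := by rw [← hU']; ring
      omega
  have hdK : d ∈ K := by
    rw [hK]
    exact AddSubgroup.subset_closure ⟨0, by simp⟩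
  -- (2)
  have hper : Per K (U.filter (fun x => x + 1 ∉ K)) := by
    intro x hx κ hκ
    rw [Finset.mem_filter] at hx ⊢
    refine ⟨?_, ?_⟩
    · by_contra h
      exact hx.2 (hb x hx.1 κ hκ h)
    · intro h
      apply hx.2
      have h2 := K.sub_mem h hκ
      have h3 : x + κ + 1 - κ = x + 1 := by ring
      rwa [h3] at h2
  have h1 := card_per K _ hper
  have h2 : (U.filter (fun x => x + 1 ∉ K)).card + (U.filter (fun x => x + 1 ∈ K)).card =
      U.card := by
    rw [add_comm]
    exact Finset.card_filter_add_card_filter_not (s := U) (fun x => x + 1 ∈ K)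
  have h3 : Nat.card K ∣ (U.filter (fun x => x + 1 ∈ K)).card + 1 := by
    rw [← h2, add_assoc] at hcard
    exact (Nat.dvd_add_right h1).1 hcard
  obtain ⟨R, hR⟩ : ∃ R : Finset (ZMod n), R = Finset.univ.filter (fun x => x + 1 ∈ K) := ⟨_, rfl⟩
  have hRm : ∀ x, x ∈ R ↔ x + 1 ∈ K := by
    intro x
    rw [hR, Finset.mem_filter]
    simp
  have hRc : R.card = Nat.card K := by
    rw [Nat.card_eq_fintype_card, Fintype.card_subtype]
    refine Finset.card_nbij' (fun x => x + 1) (fun x => x - 1) ?_ ?_ ?_ ?_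
    · intro x hx
      rw [Finset.mem_coe, hRm] at hx
      simpa using hx
    · intro x hx
      rw [Finset.mem_coe, hRm]
      simpa using hx
    · intro x _
      simp
    · intro x _
      simp
  have hsub : U.filter (fun x => x + 1 ∈ K) ⊆ R := by
    intro x hx
    rw [hRm]
    exact (Finset.mem_filter.1 hx).2
  have h4 := Finset.card_le_card hsub
  have h5 : (R \ U.filter (fun x => x + 1 ∈ K)).card = 1 := by
    rw [Finset.card_sdiff_of_subset hsub]
    rw [hRc] at h4 ⊢
    obtain ⟨k, hk⟩ := h3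
    have hk1 : k = 1 := by
      rcases Nat.lt_or_ge k 1 with h | h
      · have : k = 0 := by omega
        rw [this, mul_zero] at hk
        omega
      · rcases Nat.lt_or_ge k 2 with h' | h'
        · omega
        · exfalso
          have : Nat.card K * 2 ≤ Nat.card K * k := Nat.mul_le_mul_left _ h'
          omega
    rw [hk1, mul_one] at hk
    omega
  obtain ⟨z, hz⟩ := Finset.card_eq_one.1 h5
  have hzmem : z ∈ R \ U.filter (fun x => x + 1 ∈ K) := by
    rw [hz]; exact Finset.mem_singleton_self z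
  rw [Finset.mem_sdiff, Finset.mem_filter, hRm] at hzmem
  have hzK : z + 1 ∈ K := hzmem.1
  have hzU : z ∉ U := fun h => hzmem.2 ⟨h, hzK⟩
  have hall : ∀ x, x + 1 ∈ K → x ≠ z → x ∈ U := by
    intro x hx hxz
    by_contra hxU
    apply hxz
    have : x ∈ R \ U.filter (fun x => x + 1 ∈ K) := by
      rw [Finset.mem_sdiff, Finset.mem_filter, hRm]
      exact ⟨hx, fun h => hxU h.1⟩
    rw [hz] at this
    exact Finset.mem_singleton.1 this
  have hzd : z = -1 + d := by
    have h6 : z - d + 1 ∈ K := by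
      have h7 := K.sub_mem hzK hdK
      have h8 : z + 1 - d = z - d + 1 := by ring
      rwa [h8] at h7
    have h7 : z - d ≠ z := by
      intro h
      apply hd
      exact sub_eq_self.1 h
    have h8 := ha (z - d) (hall _ h6 h7) (by rw [sub_add_cancel]; exact hzU)
    rw [← h8]; ring
  rw [← hzd]
  refine ⟨hzU, ?_⟩
  intro x hx κ hκ
  by_cases hxK : x + 1 ∈ K
  · have h6 : x + κ + 1 ∈ K := by
      have h7 := K.add_mem hxK hκ
      have h8 : x + 1 + κ = x + κ + 1 := by ring
      rwa [h8] at h7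
    by_cases h7 : x + κ = z
    · exact Or.inr h7
    · exact Or.inl (hall _ h6 h7)
  · left
    rcases hx with hx | hx
    · by_contra h
      exact hxK (hb x hx κ hκ h)
    · rw [hx] at hxK
      exact absurd hzK hxK

end Pool.Agent.Helper597.Don85
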