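import Pool.Agent.Helper597.Don85.Defs

set_option autoImplicit false

namespace Pool.Agent.Helper597.Don85



theorem cr_escape {n : ℕ} [NeZero n] (π : Equiv.Perm (ZMod n)) (d : ZMod n) (f : ZMod n → ZMod n)
    (hπ : π 0 = 0) (hd : d ≠ 0) (hf : ∀ x, f x = if x = 0 then d else π x)
    (hreach : ∀ S : Finset (ZMod n), S.Nonempty → ∃ w : List Bool,
      Finset.univ.image (fun q : ZMod n =>
        w.foldl (fun (p : ZMod n) (b : Bool) => if b then f p else p + 1) q) = S)
    (P : AddSubgroup (ZMod n)) (hdP : d ∈ P) (hP : P ≠ ⊤) : ∃ x ∈ P, π x ∉ P := by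
  classical
  by_contra hcon
  have hmap : ∀ x ∈ P, π x ∈ P := by
    intro x hx
    by_contra h
    exact hcon ⟨x, hx, h⟩
  have hback : ∀ x, π x ∈ P → x ∈ P := by
    have h1 : Set.MapsTo π (P : Set (ZMod n)) (P : Set (ZMod n)) := fun x hx => hmap x hx
    have h2 := Equiv.Perm.perm_symm_mapsTo_of_mapsTo π h1
    intro x hx
    have h3 := h2 hx
    rw [Equiv.symm_apply_apply] at h3
    exact h3
  have hf0 : f 0 = d := by rw [hf, if_pos rfl]
  have hfn : ∀ x, x ≠ 0 → f x = π x := fun x hx => by rw [hf, if_neg hx]
  have hne0 : ∀ x, f x ≠ 0 := by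
    intro x h
    by_cases hx : x = 0
    · rw [hx, hf0] at h
      exact hd h
    · rw [hfn x hx] at h
      apply hx
      apply π.injective
      rw [h, hπ]
  have key : ∀ (w : List Bool) (t : ZMod n),
      ¬ (∀ x : ZMod n, (∃ q : ZMod n,
        w.foldl (fun (p : ZMod n) (b : Bool) => if b then f p else p + 1) q = x) ↔ x - t ∉ P) := by
    intro w
    induction w using List.reverseRecOn with
    | nil =>
      intro t h
      have h1 := (h t).mp ⟨t, rfl⟩
      apply h1
      rw [sub_self]
      exact P.zero_mem
    | append_singleton w b ih =>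
      intro t h
      simp only [List.foldl_append, List.foldl_cons, List.foldl_nil] at h
      cases b with
      | false =>
        apply ih (t - 1)
        intro x
        have h1 := h (x + 1)
        simp only [Bool.false_eq_true, if_false, add_left_inj] at h1
        rw [h1]
        have : x + 1 - t = x - (t - 1) := by ring
        rw [this]
      | true =>
        simp only [if_true] at h
        have htP : t ∈ P := by
          by_contra ht
          have h1 := (h 0).mpr (by
            rw [zero_sub]
            intro hc
            exact ht (neg_mem_iff.mp hc))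
          obtain ⟨q, hq⟩ := h1
          exact hne0 _ hq
        have hx' : ∀ x, x - t ∉ P ↔ x ∉ P := by
          intro x
          apply not_congr
          constructor
          · intro hc
            have := P.add_mem hc htP
            rwa [sub_add_cancel] at this
          · intro hc
            exact P.sub_mem hc htP
        have h0S : ¬ ∃ q : ZMod n,
            w.foldl (fun (p : ZMod n) (b : Bool) => if b then f p else p + 1) q = 0 := by
          rintro ⟨q, hq⟩
          have h1 := (h (f 0)).mp ⟨q, by rw [hq]⟩
          rw [hx', hf0] at h1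
          exact h1 hdP
        apply ih 0
        intro x
        rw [sub_zero]
        constructor
        · rintro ⟨q, hq⟩ hxP
          have hx0 : x ≠ 0 := by
            rintro rfl
            exact h0S ⟨q, hq⟩
          have h1 := (h (f x)).mp ⟨q, by rw [hq]⟩
          rw [hx', hfn x hx0] at h1
          exact h1 (hmap x hxP)
        · intro hxP
          have hx0 : x ≠ 0 := by
            rintro rfl
            exact hxP P.zero_mem
          have h1 : π x ∉ P := fun hc => hxP (hback x hc)
          obtain ⟨q, hq⟩ := (h (π x)).mpr ((hx' _).mpr h1)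
          refine ⟨q, ?_⟩
          have hy0 : w.foldl (fun (p : ZMod n) (b : Bool) => if b then f p else p + 1) q ≠ 0 :=
            fun hc => h0S ⟨q, hc⟩
          rw [hfn _ hy0] at hq
          exact π.injective hq
  obtain ⟨y, hy⟩ : ∃ y, y ∉ P := by
    by_contra hc
    apply hP
    rw [eq_top_iff]
    intro y _
    by_contra h
    exact hc ⟨y, h⟩
  obtain ⟨w, hw⟩ := hreach (Finset.univ.filter (fun x => x ∉ P))
    ⟨y, Finset.mem_filter.mpr ⟨Finset.mem_univ _, hy⟩⟩
  apply key w 0
  intro x
  rw [sub_zero]
  have h1 : x ∈ Finset.univ.image (fun q : ZMod n =>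
        w.foldl (fun (p : ZMod n) (b : Bool) => if b then f p else p + 1) q) ↔ x ∉ P := by
    rw [hw, Finset.mem_filter]
    exact ⟨fun h => h.2, fun h => ⟨Finset.mem_univ _, h⟩⟩
  rw [← h1, Finset.mem_image]
  constructor
  · rintro ⟨q, hq⟩
    exact ⟨q, Finset.mem_univ _, hq⟩
  · rintro ⟨q, _, hq⟩
    exact ⟨q, hq⟩

end Pool.Agent.Helper597.Don85
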